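import Mathlib
import Pool.Agent.H22.KF.Targets

/-!
# CNT: the mass of the test sets counts the faces
-/

open MeasureTheory Filter Topology
open scoped ENNReal

namespace KFCNT

open KF

/-! ### the action of `GL(3, ℤ)` on `ℝ^3` -/

/-- the action as a linear map -/
noncomputable def actL (g : GZ) : V3 →ₗ[ℝ] V3 :=
  Matrix.mulVecLin ((g : MZ).map (Int.cast : ℤ → ℝ))

theorem actL_apply (g : GZ) (x : V3) : actL g x = actV (n := 2) g x := rfl

theorem actV_mul (g h : GZ) (x : V3) :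
    actV (n := 2) (g * h) x = actV (n := 2) g (actV (n := 2) h x) := by
  unfold actV
  rw [Matrix.mulVec_mulVec, Units.val_mul]
  congr 1
  have := Matrix.map_mul (L := (g : MZ)) (M := (h : MZ)) (f := Int.castRingHom ℝ)
  exact this

theorem actV_one (x : V3) : actV (n := 2) 1 x = x := by
  unfold actV
  rw [Units.val_one]
  have h : ((1 : MZ).map (Int.cast : ℤ → ℝ)) = 1 := by
    have := Matrix.map_one (Int.castRingHom ℝ) (map_zero _) (map_one _) (n := Fin 3)
    exact this
  rw [h, Matrix.one_mulVec]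

theorem actV_inv_act (g : GZ) (x : V3) : actV (n := 2) g⁻¹ (actV (n := 2) g x) = x := by
  rw [← actV_mul, inv_mul_cancel, actV_one]

theorem actV_act_inv (g : GZ) (x : V3) : actV (n := 2) g (actV (n := 2) g⁻¹ x) = x := by
  rw [← actV_mul, mul_inv_cancel, actV_one]

theorem actV_image_mul (g h : GZ) (F : Set V3) :
    actV (n := 2) (g * h) '' F = actV (n := 2) g '' (actV (n := 2) h '' F) := by
  rw [Set.image_image]
  exact Set.image_congr fun x _ => actV_mul g h x

theorem actV_image_one (F : Set V3) : actV (n := 2) (1 : GZ) '' F = F := by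
  have : actV (n := 2) (1 : GZ) = id := funext actV_one
  rw [this, Set.image_id]

theorem actV_int (g : GZ) {x : V3} (hx : IsIntPt (n := 2) x) :
    IsIntPt (n := 2) (actV (n := 2) g x) := by
  choose k hk using hx
  intro i
  refine ⟨∑ j, (g : MZ) i j * k j, ?_⟩
  simp only [actV, Matrix.mulVec, dotProduct, Matrix.map_apply]
  push_cast
  exact Finset.sum_congr rfl fun j _ => by rw [hk j]

theorem actV_int_iff (g : GZ) (x : V3) :
    IsIntPt (n := 2) (actV (n := 2) g x) ↔ IsIntPt (n := 2) x := by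
  refine ⟨fun h => ?_, actV_int g⟩
  have := actV_int g⁻¹ h
  rwa [actV_inv_act] at this

theorem coneOf_act (γ : GZ) (v : Fin 3 → V3) (ε : Fin 3 → ℤˣ) :
    coneOf (n := 2) (fun i => actV (n := 2) γ (v i)) ε = actV (n := 2) γ '' coneOf (n := 2) v ε := by
  ext x
  constructor
  · rintro ⟨t, ht, rfl⟩
    refine ⟨∑ i, (t i * ((ε i : ℤ) : ℝ)) • v i, ⟨t, ht, rfl⟩, ?_⟩
    rw [← actL_apply, map_sum]
    exact Finset.sum_congr rfl fun i _ => by rw [map_smul, actL_apply]
  · rintro ⟨y, ⟨t, ht, rfl⟩, rfl⟩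
    refine ⟨t, ht, ?_⟩
    rw [← actL_apply, map_sum]
    exact Finset.sum_congr rfl fun i _ => by rw [map_smul, actL_apply]

theorem klein_act (γ : GZ) (v : Fin 3 → V3) (ε : Fin 3 → ℤˣ) :
    klein (n := 2) (fun i => actV (n := 2) γ (v i)) ε = actV (n := 2) γ '' klein (n := 2) v ε := by
  unfold klein
  have h := (actL γ).image_convexHull
    {x | x ∈ coneOf (n := 2) v ε ∧ x ≠ 0 ∧ IsIntPt (n := 2) x}
  have h2 : (actL γ : V3 → V3) = actV (n := 2) γ := rfl
  rw [h2] at h
  rw [h, coneOf_act]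
  congr 1
  ext x
  constructor
  · rintro ⟨⟨y, hy, rfl⟩, h0, hi⟩
    refine ⟨y, ⟨hy, fun h => h0 ?_, (actV_int_iff γ y).1 hi⟩, rfl⟩
    rw [h, ← actL_apply, map_zero]
  · rintro ⟨y, ⟨hy, h0, hi⟩, rfl⟩
    refine ⟨⟨y, hy, rfl⟩, fun h => h0 ?_, (actV_int_iff γ y).2 hi⟩
    rw [← actV_inv_act γ y, h, ← actL_apply, map_zero]

theorem isFace_act (γ : GZ) (v : Fin 3 → V3) (F : Set V3) (h : IsFace (n := 2) v F) :
    IsFace (n := 2) (fun i => actV (n := 2) γ (v i)) (actV (n := 2) γ '' F) := by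
  obtain ⟨ε, hne, hexp, hneq⟩ := h
  refine ⟨ε, hne.image _, ?_, ?_⟩
  · intro _
    obtain ⟨l, hl⟩ := hexp hne
    refine ⟨l.comp (LinearMap.toContinuousLinearMap (actL γ⁻¹)), ?_⟩
    rw [klein_act]
    ext x
    constructor
    · rintro ⟨y, hy, rfl⟩
      rw [hl] at hy
      refine ⟨⟨y, hy.1, rfl⟩, ?_⟩
      rintro _ ⟨z, hz, rfl⟩
      have e1 : ∀ y : V3, (l.comp (LinearMap.toContinuousLinearMap (actL γ⁻¹)))
          (actV (n := 2) γ y) = l y := by
        intro y
        simp only [ContinuousLinearMap.coe_comp, Function.comp,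
          LinearMap.coe_toContinuousLinearMap']
        rw [actL_apply, actV_inv_act]
      rw [e1, e1]
      exact hy.2 z hz
    · rintro ⟨⟨y, hy, rfl⟩, hmax⟩
      refine ⟨y, ?_, rfl⟩
      rw [hl]
      refine ⟨hy, fun z hz => ?_⟩
      have e1 : ∀ y : V3, (l.comp (LinearMap.toContinuousLinearMap (actL γ⁻¹)))
          (actV (n := 2) γ y) = l y := by
        intro y
        simp only [ContinuousLinearMap.coe_comp, Function.comp,
          LinearMap.coe_toContinuousLinearMap']
        rw [actL_apply, actV_inv_act]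
      have := hmax _ ⟨z, hz, rfl⟩
      rwa [e1, e1] at this
  · intro h
    apply hneq
    rw [klein_act] at h
    have hinj : Function.Injective (actV (n := 2) γ) :=
      Function.LeftInverse.injective (actV_inv_act γ)
    exact hinj.image_injective h

theorem isFace_act_iff (γ : GZ) (v : Fin 3 → V3) (F : Set V3) :
    IsFace (n := 2) (fun i => actV (n := 2) γ⁻¹ (v i)) F ↔
      IsFace (n := 2) v (actV (n := 2) γ '' F) := by
  constructor
  · intro h
    have := isFace_act γ _ F h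
    simpa only [actV_act_inv] using this
  · intro h
    have := isFace_act γ⁻¹ _ _ h
    rwa [← actV_image_mul, inv_mul_cancel, actV_image_one] at this

/-! ### invariance of faces under scaling and permutation -/

/-- the sign of a nonzero real number as a unit -/
noncomputable def sg (c : ℝ) : ℤˣ := if 0 ≤ c then 1 else -1

theorem sg_mul_abs (c : ℝ) : ((sg c : ℤ) : ℝ) * |c| = c := by
  unfold sg
  split_ifs with h
  · rw [abs_of_nonneg h]; simp
  · rw [abs_of_neg (not_le.1 h)]; simp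

theorem sg_mul_self (c : ℝ) : ((sg c : ℤ) : ℝ) * ((sg c : ℤ) : ℝ) = 1 := by
  unfold sg
  split_ifs <;> simp

theorem coneOf_smul (v : Fin 3 → V3) (c : Fin 3 → ℝ) (hc : ∀ i, c i ≠ 0) (ε : Fin 3 → ℤˣ) :
    coneOf (n := 2) (fun i => c i • v i) ε = coneOf (n := 2) v (fun i => ε i * sg (c i)) := by
  ext x
  constructor
  · rintro ⟨t, ht, rfl⟩
    refine ⟨fun i => t i * |c i|, fun i => mul_nonneg (ht i) (abs_nonneg _), ?_⟩
    refine Finset.sum_congr rfl fun i _ => ?_
    rw [smul_smul]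
    congr 1
    push_cast
    have := sg_mul_abs (c i)
    calc t i * ((ε i : ℤ) : ℝ) * c i = t i * ((ε i : ℤ) : ℝ) * (((sg (c i) : ℤ) : ℝ) * |c i|) := by
          rw [this]
      _ = _ := by ring
  · rintro ⟨t, ht, rfl⟩
    refine ⟨fun i => t i * |c i|⁻¹, fun i => mul_nonneg (ht i) (inv_nonneg.2 (abs_nonneg _)), ?_⟩
    refine Finset.sum_congr rfl fun i _ => ?_
    rw [smul_smul]
    congr 1
    push_cast
    have h1 := sg_mul_abs (c i)
    have h2 : |c i|⁻¹ * |c i| = 1 := inv_mul_cancel₀ (abs_ne_zero.2 (hc i))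
    calc t i * (((ε i : ℤ) : ℝ) * ((sg (c i) : ℤ) : ℝ))
        = t i * (((ε i : ℤ) : ℝ) * ((sg (c i) : ℤ) : ℝ)) * (|c i|⁻¹ * |c i|) := by rw [h2, mul_one]
      _ = t i * |c i|⁻¹ * ((ε i : ℤ) : ℝ) * (((sg (c i) : ℤ) : ℝ) * |c i|) := by ring
      _ = _ := by rw [h1]

theorem isFace_smul_of (v : Fin 3 → V3) (c : Fin 3 → ℝ) (hc : ∀ i, c i ≠ 0) (F : Set V3)
    (h : IsFace (n := 2) (fun i => c i • v i) F) : IsFace (n := 2) v F := by
  obtain ⟨ε, h⟩ := h
  refine ⟨fun i => ε i * sg (c i), ?_⟩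
  unfold klein at h ⊢
  rwa [coneOf_smul v c hc] at h

theorem isFace_smul (v : Fin 3 → V3) (c : Fin 3 → ℝ) (hc : ∀ i, c i ≠ 0) (F : Set V3) :
    IsFace (n := 2) (fun i => c i • v i) F ↔ IsFace (n := 2) v F := by
  refine ⟨isFace_smul_of v c hc F, fun h => ?_⟩
  refine isFace_smul_of (fun i => c i • v i) (fun i => (c i)⁻¹) (fun i => inv_ne_zero (hc i)) F ?_
  have : (fun i => (c i)⁻¹ • c i • v i) = v := by
    funext i
    rw [smul_smul, inv_mul_cancel₀ (hc i), one_smul]
  rwa [this]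

theorem isFace_perm_of (v : Fin 3 → V3) (σ : Equiv.Perm (Fin 3)) (F : Set V3)
    (h : IsFace (n := 2) (fun i => v (σ i)) F) : IsFace (n := 2) v F := by
  obtain ⟨ε, h⟩ := h
  refine ⟨fun i => ε (σ.symm i), ?_⟩
  have hcone : coneOf (n := 2) (fun i => v (σ i)) ε = coneOf (n := 2) v (fun i => ε (σ.symm i)) := by
    ext x
    constructor
    · rintro ⟨t, ht, rfl⟩
      refine ⟨fun i => t (σ.symm i), fun i => ht _, ?_⟩
      rw [← Equiv.sum_comp σ (fun i => (t (σ.symm i) * ((ε (σ.symm i) : ℤ) : ℝ)) • v i)]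
      simp
    · rintro ⟨t, ht, rfl⟩
      refine ⟨fun i => t (σ i), fun i => ht _, ?_⟩
      rw [← Equiv.sum_comp σ (fun i => (t i * ((ε (σ.symm i) : ℤ) : ℝ)) • v i)]
      simp
  unfold klein at h ⊢
  rwa [hcone] at h

theorem isFace_perm (v : Fin 3 → V3) (σ : Equiv.Perm (Fin 3)) (F : Set V3) :
    IsFace (n := 2) (fun i => v (σ i)) F ↔ IsFace (n := 2) v F := by
  refine ⟨isFace_perm_of v σ F, fun h => ?_⟩
  refine isFace_perm_of (fun i => v (σ i)) σ.symm F ?_
  simpa using h

/-! ### frames -/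

theorem frame_ext {φ ψ : Frame} (h1 : φ.M = ψ.M) (h2 : φ.ev = ψ.ev) (h3 : φ.v = ψ.v) : φ = ψ := by
  cases φ
  cases ψ
  simp only at h1 h2 h3
  subst h1
  subst h2
  subst h3
  rfl

theorem act_inv_act (γ : GZ) (φ : Frame) : Frame.act γ⁻¹ (Frame.act γ φ) = φ := by
  refine frame_ext ?_ rfl ?_
  · change conjZ γ⁻¹ (conjZ γ φ.M) = φ.M
    rw [← conjZ_mul, inv_mul_cancel, conjZ_one]
  · funext i
    change mulZ γ⁻¹ (mulZ γ (φ.v i)) = φ.v i
    rw [← mulZ_mul, inv_mul_cancel, mulZ_one]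

theorem act_act_inv (γ : GZ) (φ : Frame) : Frame.act γ (Frame.act γ⁻¹ φ) = φ := by
  have := act_inv_act γ⁻¹ φ
  rwa [inv_inv] at this

/-- the reindexing `(φ, γ) ↦ (γ φ, γ)` -/
def reidx : Frame × GZ ≃ Frame × GZ where
  toFun p := (Frame.act p.2 p.1, p.2)
  invFun p := (Frame.act p.2⁻¹ p.1, p.2)
  left_inv p := by
    obtain ⟨φ, γ⟩ := p
    simp only
    rw [act_inv_act]
  right_inv p := by
    obtain ⟨φ, γ⟩ := p
    simp only
    rw [act_act_inv]

theorem ent_R (φ : Frame) (i : Fin 3) : ent φ.R i = cst (φ.v i) := rfl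

theorem ent_act (γ : GZ) (φ : Frame) :
    ent (Frame.act γ φ).R = fun i => actV (n := 2) γ (ent φ.R i) := by
  funext i j
  have h1 : ent (Frame.act γ φ).R i j = ((mulZ γ (φ.v i) j : ℤ) : ℝ) := rfl
  rw [h1]
  simp only [mulZ, actV, Matrix.mulVec, dotProduct, Matrix.map_apply]
  push_cast
  rfl

theorem isFace_act_frame (γ : GZ) (ψ : Frame) (F : Set V3) :
    IsFace (n := 2) (ent (Frame.act γ⁻¹ ψ).R) F ↔
      IsFace (n := 2) (ent ψ.R) (actV (n := 2) γ '' F) := by
  rw [ent_act]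
  exact isFace_act_iff γ _ F

/-- the faces of the matrix of a frame -/
theorem facesOf_frame (hF : KF.T_FRM) (hS : KF.T_SGN) (ψ : Frame) (F : Set V3) :
    F ∈ facesOf (n := 2) ψ.M ↔ IsFace (n := 2) (ent ψ.R) F := by
  constructor
  · rintro ⟨e, v, he, hv, hface⟩
    obtain ⟨φ, hφM, hφe, hφv⟩ := hF ψ.M e v he hv
    choose c hc hcv using hφv
    have h1 : v = fun i => c i • cst (φ.v i) := funext hcv
    rw [h1, isFace_smul _ c hc] at hface
    obtain ⟨σ, hσ⟩ := hS ψ φ hφM.symm
    -- `φ.v i = ± ψ.v (σ i)`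
    have h2 : ∀ i, ∃ d : ℝ, d ≠ 0 ∧ cst (φ.v i) = d • ent ψ.R (σ i) := by
      intro i
      rcases (hσ i).2 with h | h
      · refine ⟨1, one_ne_zero, ?_⟩
        rw [one_smul, h]
        rfl
      · refine ⟨-1, by norm_num, ?_⟩
        rw [h]
        funext j
        simp [cst, ent_R]
    choose d hd hdv using h2
    have h3 : (fun i => cst (φ.v i)) = fun i => d i • (fun i => ent ψ.R (σ i)) i := funext hdv
    rw [h3, isFace_smul _ d hd] at hface
    exact (isFace_perm (ent ψ.R) σ F).1 hface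
  · intro h
    refine ⟨fun i => (ψ.ev i : ℚ), ent ψ.R, ?_, ?_, h⟩
    · intro i j hij
      have : (ψ.ev i : ℚ) = (ψ.ev j : ℚ) := hij
      exact ψ.inj (by exact_mod_cast this)
    · intro i
      refine ⟨?_, ?_⟩
      · intro h0
        apply ψ.v_ne i
        funext j
        have := congrFun h0 j
        rw [ent_R] at this
        simpa [cst] using this
      · funext j
        have h1 := congrFun (ψ.eig i) j
        simp only [Matrix.mulVec, dotProduct, Pi.smul_apply, smul_eq_mul] at h1 ⊢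
        simp only [Matrix.map_apply, ent_R, cst]
        have h2 : ((∑ k, ψ.M j k * ψ.v i k : ℤ) : ℝ) = ((ψ.ev i * ψ.v i j : ℤ) : ℝ) := by
          rw [h1]
        push_cast at h2 ⊢
        exact h2

/-! ### the mass of an orbit -/

theorem nrm_smul (t : ℝ) (ht : 0 ≤ t) (x : V3) : nrm (fun j => t * x j) = t * nrm x := by
  unfold nrm
  have : ∑ i, (t * x i) ^ 2 = t ^ 2 * ∑ i, x i ^ 2 := by
    rw [Finset.mul_sum]
    exact Finset.sum_congr rfl fun i _ => by ring
  rw [this, Real.sqrt_mul (by positivity), Real.sqrt_sq ht]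

theorem nrm_pos {x : V3} (hx : x ≠ 0) : 0 < nrm x := by
  unfold nrm
  apply Real.sqrt_pos.2
  obtain ⟨i, hi⟩ := Function.ne_iff.1 hx
  have hi' : x i ≠ 0 := hi
  have h1 : 0 < x i ^ 2 := by positivity
  exact lt_of_lt_of_le h1 (Finset.single_le_sum (f := fun i => x i ^ 2)
    (fun _ _ => by positivity) (Finset.mem_univ i))

theorem UF_scale (S : Finset (ℤ × ℤ)) (g : GR) (s : Fin 3 → ℝ) :
    UF S (ent (dg s * g)) ↔ UF S (ent g) := by
  have hent : ∀ i j, ent (dg s * g) i j = Real.exp (s i) * ent g i j :=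
    fun i j => dg_mul_apply s g i j
  have hinv : ∀ g : GR, (Matrix.of (ent g))⁻¹ = ((g⁻¹ : GR) : MR) := by
    intro g
    have h1 : Matrix.of (ent g) = (g : MR) := rfl
    rw [h1, Matrix.coe_units_inv]
  have hcoef : ∀ (p : V3) i, coef (ent (dg s * g)) p i = coef (ent g) p i * Real.exp (-s i) := by
    intro p i
    unfold coef
    rw [hinv, hinv, mul_inv_rev]
    have hd : (dg s)⁻¹ = dg (-s) := by
      rw [inv_eq_iff_mul_eq_one, ← dg_add, add_neg_cancel, dg_zero]
    rw [hd, Units.val_mul, ← Matrix.vecMul_vecMul, dg_coe, Matrix.vecMul_diagonal]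
    rfl
  unfold UF
  have hprod : ∀ (p : V3) i, coef (ent (dg s * g)) p i * ent (dg s * g) i 2 =
      coef (ent g) p i * ent g i 2 := by
    intro p i
    rw [hcoef, hent]
    have : Real.exp (-s i) * Real.exp (s i) = 1 := by
      rw [← Real.exp_add]
      simp
    calc coef (ent g) p i * Real.exp (-s i) * (Real.exp (s i) * ent g i 2)
        = coef (ent g) p i * ent g i 2 * (Real.exp (-s i) * Real.exp (s i)) := by ring
      _ = _ := by rw [this, mul_one]
  simp only [hprod]
  have h0 : (∀ i, ent (dg s * g) i 2 ≠ 0) ↔ (∀ i, ent g i 2 ≠ 0) := by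
    refine forall_congr' fun i => ?_
    rw [hent]
    simp [(Real.exp_pos (s i)).ne']
  rw [h0]

theorem orb_WS (hWM : KF.T_WM) (S : Finset (ℤ × ℤ)) (φ : Frame) [Decidable (UF S (ent φ.R))] :
    orb φ (WS S) = if UF S (ent φ.R) then 1 else 0 := by
  have hmeas : Measurable (fun s : Fin 3 → ℝ => dg s * φ.R) :=
    (continuous_dg.mul continuous_const).measurable
  rw [orb, Measure.map_apply hmeas (hWM S)]
  have hN : ∀ i, 0 < nrm (ent φ.R i) := by
    intro i
    apply nrm_pos
    intro h0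
    apply φ.v_ne i
    funext j
    have := congrFun h0 j
    rw [ent_R] at this
    simpa [cst] using this
  have hrow : ∀ (s : Fin 3 → ℝ) i, nrm (ent (dg s * φ.R) i) = Real.exp (s i) * nrm (ent φ.R i) := by
    intro s i
    rw [← nrm_smul _ (Real.exp_pos _).le]
    congr 1
    funext j
    exact dg_mul_apply s φ.R i j
  by_cases h : UF S (ent φ.R)
  · rw [if_pos h]
    have hset : (fun s : Fin 3 → ℝ => dg s * φ.R) ⁻¹' WS S =
        Set.univ.pi fun i => Set.Ico (-Real.log (nrm (ent φ.R i))) (1 - Real.log (nrm (ent φ.R i))) := by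
      ext s
      simp only [Set.mem_preimage, WS, Set.mem_ofPred_eq, UF_scale, h, true_and, Set.mem_pi,
        Set.mem_univ, forall_true_left, Set.mem_Ico, hrow]
      refine forall_congr' fun i => ?_
      have hNi := hN i
      rw [neg_le_iff_add_nonneg, lt_sub_iff_add_lt]
      have e1 : Real.exp (s i) * nrm (ent φ.R i) = Real.exp (s i + Real.log (nrm (ent φ.R i))) := by
        rw [Real.exp_add, Real.exp_log hNi]
      rw [e1, Real.exp_lt_exp, Real.one_le_exp_iff]
    rw [hset, Real.volume_pi_Ico]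
    simp
  · rw [if_neg h]
    have hset : (fun s : Fin 3 → ℝ => dg s * φ.R) ⁻¹' WS S = ∅ := by
      ext s
      simp [WS, UF_scale, h]
    rw [hset, measure_empty]

/-! ### counting -/

open Classical in
theorem tsum_ite_encard {α : Type*} (s : Set α) :
    ∑' x : α, (if x ∈ s then (1 : ℝ≥0∞) else 0) = (s.encard : ℝ≥0∞) := by
  rw [← ENNReal.tsum_set_one s, tsum_subtype s (fun _ => (1 : ℝ≥0∞))]
  refine tsum_congr fun x => ?_
  rw [Set.indicator_apply]

open Classical in
/-- the number of `γ` with `γ F = F'` -/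
theorem count_eq (F F' : Set V3) :
    ∑' γ : GZ, (if actV (n := 2) γ '' F = F' then (1 : ℝ≥0∞) else 0) =
      (if Congr (n := 2) F F' then 1 else 0) * ((stabF (n := 2) F).encard : ℝ≥0∞) := by
  by_cases h : Congr (n := 2) F F'
  · rw [if_pos h, one_mul]
    obtain ⟨g, hg⟩ := h
    rw [← tsum_ite_encard, ← (Equiv.mulLeft g).tsum_eq]
    refine tsum_congr fun γ => ?_
    have : (actV (n := 2) (Equiv.mulLeft g γ) '' F = F') ↔ γ ∈ stabF (n := 2) F := by
      have hinj : Function.Injective (actV (n := 2) g) :=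
        Function.LeftInverse.injective (actV_inv_act g)
      rw [Equiv.coe_mulLeft, actV_image_mul, hg, stabF, Set.mem_ofPred_eq]
      exact hinj.image_injective.eq_iff
    simp only [this]
  · rw [if_neg h, zero_mul, ENNReal.tsum_eq_zero]
    intro γ
    rw [if_neg]
    intro hγ
    exact h ⟨γ, hγ.symm⟩

open Classical in
theorem CNT (hFRM : KF.T_FRM) (hSGN : KF.T_SGN) (hF48 : KF.T_F48) (hFACE : KF.T_FACE)
    (hWM : KF.T_WM) : KF.T_CNT := by
  intro S m hS
  set F : Set V3 := poly S with hF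
  have hface : ∀ φ : Frame, UF S (ent φ.R) ↔ IsFace (n := 2) (ent φ.R) F := by
    intro φ
    refine (hFACE S (ent φ.R) hS ?_ fun i => Or.inr ⟨φ.v i, rfl⟩).symm
    exact φ.det_ne
  -- rewrite the measure as a sum
  have h1 : rho m (WS S) = ∑' p : Frame × GZ, (if l1 (n := 2) (conjZ p.2 p.1.M) ≤ m then
      (1 : ℝ≥0∞) else 0) * (if IsFace (n := 2) (ent p.1.R) F then 1 else 0) := by
    rw [rho, Measure.sum_apply _ (hWM S), ENNReal.tsum_prod']
    refine tsum_congr fun φ => ?_
    rw [Measure.smul_apply, smul_eq_mul, orb_WS hWM, bm, ← ENNReal.tsum_mul_right]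
    refine tsum_congr fun γ => ?_
    simp only [hface]
  have h2 : rho m (WS S) = ∑' p : Frame × GZ, (if l1 (n := 2) p.1.M ≤ m then
      (1 : ℝ≥0∞) else 0) * (if IsFace (n := 2) (ent p.1.R) (actV (n := 2) p.2 '' F) then 1 else 0) := by
    rw [h1, ← reidx.symm.tsum_eq]
    refine tsum_congr fun p => ?_
    obtain ⟨ψ, γ⟩ := p
    have e1 : conjZ γ (Frame.act γ⁻¹ ψ).M = ψ.M := by
      change conjZ γ (conjZ γ⁻¹ ψ.M) = ψ.M
      rw [← conjZ_mul, mul_inv_cancel, conjZ_one]
    have e2 : reidx.symm (ψ, γ) = (Frame.act γ⁻¹ ψ, γ) := rfl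
    rw [e2]
    simp only [e1, isFace_act_frame]
  -- the contribution of one matrix
  set St : ℝ≥0∞ := ((stabF (n := 2) F).encard : ℝ≥0∞) with hSt
  set G : MZ → ℝ≥0∞ := fun M => (if l1 (n := 2) M ≤ m then (1 : ℝ≥0∞) else 0) *
    ∑' F' : Set V3, (if F' ∈ facesOf (n := 2) M then (1 : ℝ≥0∞) else 0) *
      (if Congr (n := 2) F F' then 1 else 0) * St with hG
  have h3 : rho m (WS S) = ∑' ψ : Frame, G ψ.M := by
    rw [h2, ENNReal.tsum_prod']
    refine tsum_congr fun ψ => ?_
    change ∑' γ : GZ, (if l1 (n := 2) ψ.M ≤ m then (1 : ℝ≥0∞) else 0) *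
      (if IsFace (n := 2) (ent ψ.R) (actV (n := 2) γ '' F) then 1 else 0) = G ψ.M
    rw [ENNReal.tsum_mul_left, hG]
    congr 1
    calc ∑' γ : GZ, (if IsFace (n := 2) (ent ψ.R) (actV (n := 2) γ '' F) then (1 : ℝ≥0∞) else 0)
        = ∑' γ : GZ, ∑' F' : Set V3, (if F' ∈ facesOf (n := 2) ψ.M then (1 : ℝ≥0∞) else 0) *
            (if actV (n := 2) γ '' F = F' then 1 else 0) := by
          refine tsum_congr fun γ => ?_
          rw [tsum_eq_single (actV (n := 2) γ '' F)]
          · rw [if_pos rfl, mul_one, facesOf_frame hFRM hSGN]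
          · intro F' hF'
            rw [if_neg (Ne.symm hF'), mul_zero]
      _ = ∑' F' : Set V3, ∑' γ : GZ, (if F' ∈ facesOf (n := 2) ψ.M then (1 : ℝ≥0∞) else 0) *
            (if actV (n := 2) γ '' F = F' then 1 else 0) := ENNReal.tsum_comm
      _ = _ := by
          refine tsum_congr fun F' => ?_
          rw [ENNReal.tsum_mul_left, count_eq, mul_assoc]
  -- group by matrices
  have h4 : ∑' ψ : Frame, G ψ.M = ∑' M : MZ, 48 * G M := by
    calc ∑' ψ : Frame, G ψ.M = ∑' ψ : Frame, ∑' M : MZ, (if ψ.M = M then (1 : ℝ≥0∞) else 0) * G M := by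
          refine tsum_congr fun ψ => ?_
          rw [tsum_eq_single ψ.M]
          · rw [if_pos rfl, one_mul]
          · intro M hM
            rw [if_neg (Ne.symm hM), zero_mul]
      _ = ∑' M : MZ, ∑' ψ : Frame, (if ψ.M = M then (1 : ℝ≥0∞) else 0) * G M := ENNReal.tsum_comm
      _ = _ := by
          refine tsum_congr fun M => ?_
          rw [ENNReal.tsum_mul_right]
          by_cases hM : ∃ φ : Frame, φ.M = M
          · obtain ⟨φ, rfl⟩ := hM
            congr 1
            obtain ⟨hfin, hcard⟩ := hF48 φ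
            have h5 : ∑' ψ : Frame, (if ψ.M = φ.M then (1 : ℝ≥0∞) else 0) =
                ({ψ : Frame | ψ.M = φ.M}.encard : ℝ≥0∞) := by
              rw [← tsum_ite_encard]
              refine tsum_congr fun ψ => ?_
              by_cases h6 : ψ.M = φ.M <;> simp [h6]
            rw [h5, ← hfin.cast_ncard_eq, hcard]
            rfl
          · have hG0 : G M = 0 := by
              rw [hG]
              simp only
              have hempty : ∀ F' : Set V3, F' ∉ facesOf (n := 2) M := by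
                rintro F' ⟨e, v, he, hv, _⟩
                obtain ⟨φ, hφ, _⟩ := hFRM M e v he hv
                exact hM ⟨φ, hφ⟩
              simp [hempty]
            rw [hG0, mul_zero, mul_zero]
  rw [h3, h4, ENNReal.tsum_mul_left, mul_assoc]
  congr 1
  rw [← tsum_ite_encard, ENNReal.tsum_prod', ← ENNReal.tsum_mul_left]
  refine tsum_congr fun M => ?_
  rw [hG]
  simp only [Set.mem_ofPred_eq]
  rw [← ENNReal.tsum_mul_left, ← ENNReal.tsum_mul_left]
  refine tsum_congr fun F' => ?_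
  by_cases a1 : l1 (n := 2) M ≤ m <;> by_cases a2 : F' ∈ facesOf (n := 2) M <;>
    by_cases a3 : Congr (n := 2) F F' <;> simp [a1, a2, hSt, hF]

end KFCNT
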