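import Mathlib
import Pool.Agent.H22.KF.Targets

/-!
# GOOD: the exceptional set of the ergodic averages depends only on the `i`-th row
-/

open MeasureTheory Filter Topology
open scoped ENNReal CompactlySupported Pointwise

namespace KFGOOD

open KF

/-- diagonal entries of `ai i ^ n` -/
noncomputable def en (i : Fin 3) (n : ℕ) (j : Fin 3) : ℝ := if j = i then 3 ^ n else 1

theorem en_pos (i : Fin 3) (n : ℕ) (j : Fin 3) : 0 < en i n j := by
  unfold en
  split_ifs <;> positivity

theorem ai_pow (i : Fin 3) (n : ℕ) : (((ai i) ^ n : GR) : MR) = Matrix.diagonal (en i n) := by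
  have h1 : (ai i : MR) = Matrix.diagonal (en i 1) := by
    rw [ai, dg_coe]
    congr 1
    funext j
    unfold en
    by_cases h : j = i
    · rw [if_pos h, h, Pi.single_eq_same, Real.exp_log (by norm_num), pow_one]
    · rw [if_neg h, Pi.single_eq_of_ne h, Real.exp_zero]
  rw [Units.val_pow_eq_pow_val, h1, Matrix.diagonal_pow]
  congr 1
  funext j
  simp only [Pi.pow_apply, en]
  split_ifs <;> simp

theorem ai_pow_inv (i : Fin 3) (n : ℕ) :
    ((((ai i) ^ n)⁻¹ : GR) : MR) = Matrix.diagonal (fun j => (en i n j)⁻¹) := by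
  have h : ((((ai i) ^ n)⁻¹ : GR) : MR) * (((ai i) ^ n : GR) : MR) = 1 := by
    rw [← Units.val_mul, inv_mul_cancel, Units.val_one]
  have h2 : Matrix.diagonal (fun j => (en i n j)⁻¹) * (((ai i) ^ n : GR) : MR) = 1 := by
    rw [ai_pow, Matrix.diagonal_mul_diagonal, ← Matrix.diagonal_one]
    congr 1
    funext j
    exact inv_mul_cancel₀ (en_pos i n j).ne'
  have h3 : (((ai i) ^ n : GR) : MR) * ((((ai i) ^ n)⁻¹ : GR) : MR) = 1 := by
    rw [← Units.val_mul, mul_inv_cancel, Units.val_one]
  calc ((((ai i) ^ n)⁻¹ : GR) : MR)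
      = (Matrix.diagonal (fun j => (en i n j)⁻¹) * (((ai i) ^ n : GR) : MR)) *
          ((((ai i) ^ n)⁻¹ : GR) : MR) := by rw [h2, Matrix.one_mul]
    _ = _ := by rw [Matrix.mul_assoc, h3, Matrix.mul_one]

theorem conj_entry (i : Fin 3) (n : ℕ) (p : GR) (j k : Fin 3) :
    ((((ai i) ^ n * p * ((ai i) ^ n)⁻¹ : GR)) : MR) j k =
      en i n j * (p : MR) j k * (en i n k)⁻¹ := by
  rw [Units.val_mul, Units.val_mul, ai_pow, ai_pow_inv, Matrix.mul_diagonal,
    Matrix.diagonal_mul]

/-- the limit of the conjugates -/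
noncomputable def zm (i : Fin 3) (p : GR) : MR := fun j k => if (j = i ↔ k = i) then (p : MR) j k else 0

theorem tendsto_conj_mat (i : Fin 3) (p : GR) (hp : ∀ k, k ≠ i → (p : MR) i k = 0) :
    Tendsto (fun n : ℕ => ((((ai i) ^ n * p * ((ai i) ^ n)⁻¹ : GR)) : MR)) atTop
      (𝓝 (zm i p)) := by
  refine tendsto_pi_nhds.2 fun j => tendsto_pi_nhds.2 fun k => ?_
  simp_rw [conj_entry]
  by_cases hj : j = i
  · by_cases hk : k = i
    · have h1 : ∀ n : ℕ, en i n j * (p : MR) j k * (en i n k)⁻¹ = zm i p j k := by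
        intro n
        rw [hj, hk, zm, if_pos Iff.rfl]
        have := (en_pos i n i).ne'
        field_simp
      simp_rw [h1]
      exact tendsto_const_nhds
    · have h1 : ∀ n : ℕ, en i n j * (p : MR) j k * (en i n k)⁻¹ = zm i p j k := by
        intro n
        rw [hj, hp k hk, zm, if_neg (by simp [hk])]
        ring
      simp_rw [h1]
      exact tendsto_const_nhds
  · by_cases hk : k = i
    · have h1 : ∀ n : ℕ, en i n j * (p : MR) j k * (en i n k)⁻¹ =
          (p : MR) j k * (1 / 3) ^ n := by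
        intro n
        rw [en, if_neg hj, en, if_pos hk, one_mul, one_div, inv_pow]
      have h2 : zm i p j k = (p : MR) j k * 0 := by
        rw [zm, if_neg (by simp [hj, hk]), mul_zero]
      simp_rw [h1]
      rw [h2]
      exact (tendsto_pow_atTop_nhds_zero_of_lt_one (by norm_num) (by norm_num)).const_mul _
    · have h1 : ∀ n : ℕ, en i n j * (p : MR) j k * (en i n k)⁻¹ = zm i p j k := by
        intro n
        rw [en, if_neg hj, en, if_neg hk, zm, if_pos (by simp [hj, hk])]
        ring
      simp_rw [h1]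
      exact tendsto_const_nhds

theorem det_zm (i : Fin 3) (p : GR) (hp : ∀ k, k ≠ i → (p : MR) i k = 0) :
    (zm i p).det ≠ 0 := by
  have h1 : Tendsto (fun n : ℕ => (((((ai i) ^ n * p * ((ai i) ^ n)⁻¹ : GR)) : MR)).det) atTop
      (𝓝 (zm i p).det) := by
    have hc : Continuous (fun A : MR => A.det) := Continuous.matrix_det continuous_id
    exact (hc.tendsto _).comp (tendsto_conj_mat i p hp)
  have h2 : ∀ n : ℕ, (((((ai i) ^ n * p * ((ai i) ^ n)⁻¹ : GR)) : MR)).det = (p : MR).det := by
    intro n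
    rw [Units.val_mul, Units.val_mul, Matrix.det_mul, Matrix.det_mul]
    have : (((ai i) ^ n : GR) : MR).det * ((((ai i) ^ n)⁻¹ : GR) : MR).det = 1 := by
      rw [← Matrix.det_mul, ← Units.val_mul, mul_inv_cancel, Units.val_one, Matrix.det_one]
    linear_combination (p : MR).det * this
  simp_rw [h2] at h1
  rw [← tendsto_nhds_unique tendsto_const_nhds h1]
  exact ((Matrix.isUnit_iff_isUnit_det _).1 p.isUnit).ne_zero

/-- the limit of the conjugates as an element of the group -/
noncomputable def zg (i : Fin 3) (p : GR) (hp : ∀ k, k ≠ i → (p : MR) i k = 0) : GR :=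
  Matrix.GeneralLinearGroup.mkOfDetNeZero (zm i p) (det_zm i p hp)

theorem tendsto_conj (i : Fin 3) (p : GR) (hp : ∀ k, k ≠ i → (p : MR) i k = 0) :
    Tendsto (fun n : ℕ => (ai i) ^ n * p * ((ai i) ^ n)⁻¹) atTop (𝓝 (zg i p hp)) := by
  rw [isEmbedding_coe.tendsto_nhds_iff]
  exact tendsto_conj_mat i p hp

theorem zg_comm (i : Fin 3) (p : GR) (hp : ∀ k, k ≠ i → (p : MR) i k = 0) :
    ai i * zg i p hp = zg i p hp * ai i := by
  apply Units.ext
  ext j k
  have h1 : (ai i : MR) = Matrix.diagonal (en i 1) := by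
    have := ai_pow i 1
    rwa [pow_one] at this
  have h2 : (zg i p hp : MR) = zm i p := rfl
  rw [Units.val_mul, Units.val_mul, h1, h2, Matrix.diagonal_mul, Matrix.mul_diagonal, zm]
  by_cases hj : j = i <;> by_cases hk : k = i <;> simp [hj, hk, en]
  ring

theorem comm_pow {i : Fin 3} {z : GR} (hz : ai i * z = z * ai i) (n : ℕ) :
    ai i ^ n * z = z * ai i ^ n :=
  ((Commute.pow_left (show Commute (ai i) z from hz) n)).eq

section averages

variable {f : GR → ℝ} {i : Fin 3}

theorem SN_sub_le (h h' : GR) (η : ℝ) (hη : 0 ≤ η) (N : ℕ)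
    (hb : ∀ n, |per f (ai i ^ n * h) - per f (ai i ^ n * h')| ≤ η) :
    |SN f i N h - SN f i N h'| ≤ η := by
  unfold SN
  rw [← sub_div, ← Finset.sum_sub_distrib, abs_div, Nat.abs_cast]
  rcases Nat.eq_zero_or_pos N with h0 | h0
  · rw [h0]
    simpa using hη
  · rw [div_le_iff₀ (by exact_mod_cast h0)]
    refine (Finset.abs_sum_le_sum_abs _ _).trans
      ((Finset.sum_le_card_nsmul _ _ η fun n _ => hb n).trans ?_)
    rw [Finset.card_range, nsmul_eq_mul, mul_comm]

end averages

/-- conull sets stay conull under left translation -/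
theorem ae_left (hH : KF.T_HAAR) {P : GR → Prop} (h : ∀ᵐ g ∂haarG, P g) (q : GR) :
    ∀ᵐ g ∂haarG, P (q * g) := by
  have := hH.1
  exact (measurePreserving_mul_left haarG q).quasiMeasurePreserving.ae h

/-- a set of rows whose preimage is null is null -/
theorem null_of_rows (i : Fin 3) (E : Set V3) (hE : ∀ x ∈ E, ∃ g : GR, ent g i = x)
    (h0 : haarG {g : GR | ent g i ∈ E} = 0) : (volume : Measure V3) E = 0 := by
  classical
  have hme : MeasurableEmbedding ent := isOpenEmbedding_ent.measurableEmbedding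
  -- the image is Lebesgue null
  have hdm : Measurable (fun g : GR => ENNReal.ofReal ((|detR g| ^ 3)⁻¹)) := by
    have hc : Continuous detR := Continuous.matrix_det (Units.continuous_val)
    exact ((hc.measurable.norm.pow_const 3).inv).ennreal_ofReal
  have hac : (Measure.comap ent (volume : Measure (Fin 3 → V3))) ≪ haarG := by
    refine withDensity_absolutelyContinuous' hdm.aemeasurable ?_
    refine Eventually.of_forall fun g => ?_
    have hd : detR g ≠ 0 := ((Matrix.isUnit_iff_isUnit_det _).1 g.isUnit).ne_zero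
    have : 0 < (|detR g| ^ 3)⁻¹ := by positivity
    simpa using this
  have h1 : (volume : Measure (Fin 3 → V3)) (ent '' {g : GR | ent g i ∈ E}) = 0 := by
    rw [← hme.comap_apply]
    exact hac h0
  refine measure_null_of_locally_null E fun x hx => ?_
  obtain ⟨g, hg⟩ := hE x hx
  have hopen : IsOpen (Set.range ent) := isOpenEmbedding_ent.isOpen_range
  obtain ⟨ε, hε, hball⟩ := Metric.isOpen_iff.1 hopen (ent g) ⟨g, rfl⟩
  refine ⟨E ∩ Metric.ball x ε, ?_, ?_⟩
  · exact inter_mem_nhdsWithin E (Metric.ball_mem_nhds x hε)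
  · set T : Fin 3 → Set V3 := fun j => if j = i then E ∩ Metric.ball x ε else
      Metric.ball (ent g j) ε with hT
    have hsub : Set.univ.pi T ⊆ ent '' {g : GR | ent g i ∈ E} := by
      intro y hy
      have hy1 : y ∈ Metric.ball (ent g) ε := by
        rw [Metric.mem_ball, dist_pi_lt_iff hε]
        intro j
        have hyj := hy j (Set.mem_univ j)
        by_cases hj : j = i
        · simp only [hT, hj, if_true] at hyj
          rw [hj, hg]
          exact hyj.2
        · simp only [hT, if_neg hj] at hyj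
          exact hyj
      obtain ⟨g', hg'⟩ := hball hy1
      refine ⟨g', ?_, hg'⟩
      have hyi := hy i (Set.mem_univ i)
      simp only [hT, if_true] at hyi
      rw [Set.mem_ofPred_eq, hg']
      exact hyi.1
    have h2 : (volume : Measure (Fin 3 → V3)) (Set.univ.pi T) = 0 :=
      measure_mono_null hsub h1
    rw [volume_pi, Measure.pi_pi] at h2
    rw [Finset.prod_eq_zero_iff] at h2
    obtain ⟨j, _, hj⟩ := h2
    by_cases hji : j = i
    · simpa [hT, hji] using hj
    · exfalso
      simp only [hT, if_neg hji] at hj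
      exact (Metric.measure_ball_pos volume (ent g j) hε).ne' hj

theorem GOOD (hM : KF.T_MEAN) (hU : KF.T_UC) (hH : KF.T_HAAR) : KF.T_GOOD := by
  intro D hD hDf i f
  obtain ⟨κ, hκ, hae⟩ := hM D hD hDf i f
  obtain ⟨hcont, ⟨B, hB⟩, hfin, hinv, hunif⟩ := hU f
  obtain ⟨c, hc⟩ : ∃ c : ℝ, c = (∫ x, f x ∂haarG) / (haarG D).toReal := ⟨_, rfl⟩
  rw [← hc] at hae ⊢
  -- the centraliser
  set Cen : Set GR := {z | ai i * z = z * ai i} with hCen
  have : Nonempty Cen := ⟨⟨1, by rw [hCen, Set.mem_ofPred_eq, mul_one, one_mul]⟩⟩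
  set Q : ℕ → Cen := TopologicalSpace.denseSeq Cen with hQ
  -- points which are good for all the members of the dense sequence
  have hae2 : ∀ᵐ g ∂haarG, ∀ n : ℕ, Tendsto (fun k => SN f i (κ k) ((Q n : GR) * g)) atTop
      (𝓝 c) := by
    rw [ae_all_iff]
    intro n
    exact ae_left hH hae (Q n : GR)
  -- then they are good for all members of the centraliser
  have hae3 : ∀ᵐ g ∂haarG, ∀ z ∈ Cen, Tendsto (fun k => SN f i (κ k) (z * g)) atTop (𝓝 c) := by
    filter_upwards [hae2] with g hg z hz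
    rw [Metric.tendsto_atTop]
    intro ε hε
    obtain ⟨U, hU1, hU2⟩ := hunif (ε / 2) (by positivity)
    -- a member of the dense sequence near `z`
    have hnear : ∃ n, z * ((Q n : GR))⁻¹ ∈ U := by
      have hcn : ContinuousAt (fun q : Cen => z * ((q : GR))⁻¹) (⟨z, hz⟩ : Cen) :=
        (continuous_const.mul (continuous_subtype_val.inv)).continuousAt
      have hmem : (fun q : Cen => z * ((q : GR))⁻¹) ⁻¹' U ∈ 𝓝 (⟨z, hz⟩ : Cen) := by
        apply hcn
        simpa using hU1
      obtain ⟨n, hn⟩ := (TopologicalSpace.denseRange_denseSeq Cen).exists_mem_open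
        isOpen_interior ⟨_, mem_interior_iff_mem_nhds.2 hmem⟩
      have hn2 : Q n ∈ (fun q : Cen => z * ((q : GR))⁻¹) ⁻¹' U := interior_subset hn
      exact ⟨n, hn2⟩
    obtain ⟨n, hn⟩ := hnear
    obtain ⟨K, hK⟩ := (Metric.tendsto_atTop.1 (hg n)) (ε / 2) (by positivity)
    refine ⟨K, fun k hk => ?_⟩
    have h1 := hK k hk
    have h2 : |SN f i (κ k) (z * g) - SN f i (κ k) ((Q n : GR) * g)| ≤ ε / 2 := by
      refine SN_sub_le _ _ _ (by positivity) _ fun m => ?_
      have hq : ai i * (Q n : GR) = (Q n : GR) * ai i := (Q n).2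
      have h3 := hU2 _ hn (ai i ^ m * ((Q n : GR) * g))
      have h4 : z * ((Q n : GR))⁻¹ * (ai i ^ m * ((Q n : GR) * g)) = ai i ^ m * (z * g) := by
        have e1 : ai i ^ m * (Q n : GR) = (Q n : GR) * ai i ^ m := comm_pow hq m
        have e2 : ai i ^ m * z = z * ai i ^ m := comm_pow hz m
        rw [← mul_assoc (ai i ^ m) (Q n : GR) g, e1, ← mul_assoc (ai i ^ m) z g, e2]
        group
      rwa [h4] at h3
    rw [Real.dist_eq] at h1 ⊢
    calc |SN f i (κ k) (z * g) - c| ≤ |SN f i (κ k) (z * g) - SN f i (κ k) ((Q n : GR) * g)| +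
          |SN f i (κ k) ((Q n : GR) * g) - c| := abs_sub_le _ _ _
      _ < ε := by linarith
  -- the good set
  set P : Set GR := {p | ∀ k, k ≠ i → (p : MR) i k = 0} with hP
  set 𝒢 : Set GR := {g | ∀ p ∈ P, Tendsto (fun k => SN f i (κ k) (p * g)) atTop (𝓝 c)} with h𝒢
  have hae4 : ∀ᵐ g ∂haarG, g ∈ 𝒢 := by
    filter_upwards [hae3] with g hg p hp
    set z := zg i p hp with hz
    have hzc : z ∈ Cen := zg_comm i p hp
    have h1 := hg z hzc
    -- the difference tends to zero
    have h2 : Tendsto (fun n : ℕ => per f (ai i ^ n * (p * g)) - per f (ai i ^ n * (z * g))) atTop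
        (𝓝 0) := by
      rw [Metric.tendsto_atTop]
      intro ε hε
      obtain ⟨U, hU1, hU2⟩ := hunif (ε / 2) (by positivity)
      have h3 : Tendsto (fun n : ℕ => (ai i) ^ n * p * ((ai i) ^ n)⁻¹ * z⁻¹) atTop (𝓝 1) := by
        have := (tendsto_conj i p hp).mul_const z⁻¹
        rwa [← hz, mul_inv_cancel] at this
      obtain ⟨K, hK⟩ := (eventually_atTop.1 (h3 hU1))
      refine ⟨K, fun n hn => ?_⟩
      have h4 := hU2 _ (hK n hn) (z * (ai i ^ n * g))
      have h5 : ai i ^ n * p * (ai i ^ n)⁻¹ * z⁻¹ * (z * (ai i ^ n * g)) = ai i ^ n * (p * g) := by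
        group
      have h6 : z * (ai i ^ n * g) = ai i ^ n * (z * g) := by
        rw [← mul_assoc, ← comm_pow hzc n, mul_assoc]
      rw [h5, h6] at h4
      rw [Real.dist_eq, sub_zero]
      linarith
    have h3 := (h2.cesaro).comp hκ.tendsto_atTop
    have h4 : Tendsto (fun k => SN f i (κ k) (p * g) - SN f i (κ k) (z * g)) atTop (𝓝 0) := by
      refine h3.congr fun k => ?_
      simp only [Function.comp, SN]
      rw [Finset.sum_sub_distrib]
      ring
    have h5 := h4.add h1
    simpa using h5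
  refine ⟨κ, {x | ∃ g, g ∉ 𝒢 ∧ ent g i = x}, hκ, ?_, ?_⟩
  · refine null_of_rows i _ (fun x hx => ?_) ?_
    · obtain ⟨g, _, hg⟩ := hx
      exact ⟨g, hg⟩
    · refine measure_mono_null (fun g hg => ?_) (ae_iff.1 hae4)
      obtain ⟨g', hg', hrow⟩ := hg
      intro hgG
      apply hg'
      -- `g' = p g` with `p ∈ P`
      have hp : g' * g⁻¹ ∈ P := by
        intro k hk
        have h1 : ∀ l, (g' : MR) i l = (g : MR) i l := fun l => congrFun hrow l
        have h2 : ((g' * g⁻¹ : GR) : MR) i k = ((g * g⁻¹ : GR) : MR) i k := by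
          rw [Units.val_mul, Units.val_mul, Matrix.mul_apply, Matrix.mul_apply]
          exact Finset.sum_congr rfl fun l _ => by rw [h1 l]
        rw [h2, mul_inv_cancel, Units.val_one, Matrix.one_apply_ne (Ne.symm hk)]
      intro p hpP
      have hpp : p * (g' * g⁻¹) ∈ P := by
        intro k hk
        rw [Units.val_mul, Matrix.mul_apply]
        refine Finset.sum_eq_zero fun l _ => ?_
        by_cases hl : l = i
        · rw [hl, hp k hk, mul_zero]
        · rw [hpP l hl, zero_mul]
      have h3 := hgG _ hpp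
      have h4 : p * (g' * g⁻¹) * g = p * g' := by group
      rwa [h4] at h3
  · intro g hg
    have hgG : g ∈ 𝒢 := by
      by_contra hcon
      exact hg ⟨g, hcon, rfl⟩
    have h1 : (1 : GR) ∈ P := by
      intro k hk
      rw [Units.val_one, Matrix.one_apply_ne (Ne.symm hk)]
    have := hgG 1 h1
    simpa using this

end KFGOOD
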