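import Mathlib
import Pool.Agent.H22.KF.Targets

/-!
# UC: uniform continuity of periodisations
-/

open MeasureTheory Filter Topology
open scoped ENNReal CompactlySupported Pointwise

namespace KFUC

open KF

/-- `Gam` meets compact sets in finite sets -/
theorem finite_preimage (hD : KF.T_DISC) {K : Set GR} (hK : IsCompact K) :
    {γ : Gam | (γ : GR) ∈ K}.Finite := by
  have : DiscreteTopology Gam := hD.1
  have hcl : IsClosedEmbedding (Subtype.val : Gam → GR) := hD.2.2.isClosedEmbedding_subtypeVal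
  have : IsCompact ((Subtype.val : Gam → GR) ⁻¹' K) := hcl.isCompact_preimage hK
  exact this.finite_of_discrete

/-- uniform bound for the number of `γ` with `g γ ∈ K` -/
theorem card_bound (hD : KF.T_DISC) {K : Set GR} (hK : IsCompact K) :
    ∃ N : ℕ, ∀ g : GR, {γ : Gam | g * (γ : GR) ∈ K}.Finite ∧
      {γ : Gam | g * (γ : GR) ∈ K}.ncard ≤ N := by
  have hK2 : IsCompact (K⁻¹ * K) := hK.inv.mul hK
  have hfin := finite_preimage hD hK2
  refine ⟨{γ : Gam | (γ : GR) ∈ K⁻¹ * K}.ncard, fun g => ?_⟩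
  rcases Set.eq_empty_or_nonempty {γ : Gam | g * (γ : GR) ∈ K} with he | ⟨γ₀, h₀⟩
  · rw [he]
    exact ⟨Set.finite_empty, by simp⟩
  · have hinj : Function.Injective (fun γ : Gam => γ₀⁻¹ * γ) := mul_right_injective _
    have hmaps : Set.MapsTo (fun γ : Gam => γ₀⁻¹ * γ) {γ : Gam | g * (γ : GR) ∈ K}
        {γ : Gam | (γ : GR) ∈ K⁻¹ * K} := by
      intro γ hγ
      refine ⟨(g * (γ₀ : GR))⁻¹, Set.inv_mem_inv.2 h₀, g * (γ : GR), hγ, ?_⟩
      simp only [Subgroup.coe_mul, Subgroup.coe_inv]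
      group
    have hf2 : {γ : Gam | g * (γ : GR) ∈ K}.Finite :=
      Set.Finite.of_finite_image (hfin.subset (Set.image_subset_iff.2 hmaps)) hinj.injOn
    exact ⟨hf2, Set.ncard_le_ncard_of_injOn _ hmaps hinj.injOn hfin⟩

theorem UC (hD : KF.T_DISC) : KF.T_UC := by
  intro f
  have hfc : HasCompactSupport f := f.hasCompactSupport
  set K : Set GR := tsupport f with hKdef
  have hK : IsCompact K := hfc
  have hfK : ∀ x, x ∉ K → f x = 0 := fun x hx => image_eq_zero_of_notMem_tsupport hx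
  obtain ⟨U₀, hU₀c, hU₀⟩ := exists_compact_mem_nhds (1 : GR)
  set K' : Set GR := U₀⁻¹ * K with hK'def
  have hK' : IsCompact K' := hU₀c.inv.mul hK
  have h1U₀ : (1 : GR) ∈ U₀ := mem_of_mem_nhds hU₀
  have hKK' : K ⊆ K' := by
    intro x hx
    exact ⟨1, by simpa using h1U₀, x, hx, by simp⟩
  obtain ⟨N, hN⟩ := card_bound hD hK'
  have hsupp : ∀ g : GR, Function.support (fun γ : Gam => f (g * (γ : GR))) ⊆
      {γ : Gam | g * (γ : GR) ∈ K'} := by
    intro g γ hγ
    by_contra hcon
    exact hγ (hfK _ fun h => hcon (hKK' h))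
  have hfin : ∀ g : GR, (Function.support (fun γ : Gam => f (g * (γ : GR)))).Finite :=
    fun g => (hN g).1.subset (hsupp g)
  have hsum : ∀ g : GR, Summable (fun γ : Gam => f (g * (γ : GR))) :=
    fun g => summable_of_hasFiniteSupport (hfin g)
  -- uniform continuity
  have hunif : ∀ η : ℝ, 0 < η → ∃ U ∈ 𝓝 (1 : GR), ∀ u ∈ U, ∀ g : GR,
      |per f (u * g) - per f g| ≤ η := by
    intro η hη
    set η' : ℝ := η / (N + 1) with hη'
    have hη'0 : 0 < η' := by positivity
    have hev : ∀ᶠ u in 𝓝 (1 : GR), ∀ x ∈ K', |f (u * x) - f x| < η' := by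
      refine hK'.eventually_forall_of_forall_eventually fun x _ => ?_
      have hcont : Continuous fun z : GR × GR => |f (z.1 * z.2) - f z.2| :=
        ((f.continuous.comp (continuous_fst.mul continuous_snd)).sub
          (f.continuous.comp continuous_snd)).abs
      have h0 : |f ((1 : GR) * x) - f x| < η' := by simpa using hη'0
      have h2 : IsOpen {z : GR × GR | |f (z.1 * z.2) - f z.2| < η'} :=
        isOpen_lt hcont continuous_const
      exact h2.mem_nhds h0
    refine ⟨{u | (∀ x ∈ K', |f (u * x) - f x| < η') ∧ u ∈ U₀}, hev.and hU₀, ?_⟩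
    rintro u ⟨hu, huU⟩ g
    set A := (hN g).1.toFinset with hA
    have hmemA : ∀ γ : Gam, γ ∈ A ↔ g * (γ : GR) ∈ K' := fun γ => by simp [hA]
    have hs1 : per f g = ∑ γ ∈ A, f (g * (γ : GR)) := by
      refine tsum_eq_sum fun γ hγ => hfK _ fun h => hγ ((hmemA γ).2 (hKK' h))
    have hs2 : per f (u * g) = ∑ γ ∈ A, f (u * g * (γ : GR)) := by
      refine tsum_eq_sum fun γ hγ => hfK _ fun h => hγ ((hmemA γ).2 ?_)
      refine ⟨u⁻¹, Set.inv_mem_inv.2 huU, u * g * (γ : GR), h, ?_⟩
      group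
    have hcard : (A.card : ℝ) ≤ N := by
      have := (hN g).2
      rw [Set.ncard_eq_toFinset_card _ (hN g).1] at this
      exact_mod_cast this
    rw [hs1, hs2, ← Finset.sum_sub_distrib]
    refine (Finset.abs_sum_le_sum_abs _ _).trans ?_
    have hle : ∀ γ ∈ A, |f (u * g * (γ : GR)) - f (g * (γ : GR))| ≤ η' := by
      intro γ hγ
      have := hu _ ((hmemA γ).1 hγ)
      rw [← mul_assoc] at this
      exact this.le
    refine (Finset.sum_le_card_nsmul _ _ _ hle).trans ?_
    rw [nsmul_eq_mul]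
    calc (A.card : ℝ) * η' ≤ (N + 1) * η' :=
          mul_le_mul_of_nonneg_right (by linarith) hη'0.le
      _ = η := by
          rw [hη']
          field_simp
  refine ⟨?_, ?_, hfin, ?_, hunif⟩
  · -- continuity
    rw [continuous_iff_continuousAt]
    intro g
    rw [Metric.continuousAt_iff']
    intro ε hε
    obtain ⟨U, hU, hUb⟩ := hunif (ε / 2) (by positivity)
    have h1 : Tendsto (fun h : GR => h * g⁻¹) (𝓝 g) (𝓝 1) := by
      have : Tendsto (fun h : GR => h * g⁻¹) (𝓝 g) (𝓝 (g * g⁻¹)) :=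
        (continuous_id.mul continuous_const).continuousAt
      rwa [mul_inv_cancel] at this
    filter_upwards [h1 hU] with h hh
    have h2 := hUb _ hh g
    rw [inv_mul_cancel_right] at h2
    rw [Real.dist_eq]
    linarith
  · -- boundedness
    obtain ⟨B, hB⟩ : ∃ B : ℝ, ∀ x, |f x| ≤ B := by
      obtain ⟨B, hB⟩ := hfc.exists_bound_of_continuous f.continuous
      exact ⟨B, hB⟩
    have hB0 : 0 ≤ B := (abs_nonneg _).trans (hB 1)
    refine ⟨N * B, fun g => ?_⟩
    have hs1 : per f g = ∑ γ ∈ (hN g).1.toFinset, f (g * (γ : GR)) := by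
      refine tsum_eq_sum fun γ hγ => hfK _ fun h => hγ ?_
      simp only [Set.Finite.mem_toFinset, Set.mem_ofPred_eq]
      exact hKK' h
    rw [hs1]
    refine (Finset.abs_sum_le_sum_abs _ _).trans
      ((Finset.sum_le_card_nsmul _ _ B fun γ _ => hB _).trans ?_)
    rw [nsmul_eq_mul]
    refine mul_le_mul_of_nonneg_right ?_ hB0
    have := (hN g).2
    rw [Set.ncard_eq_toFinset_card _ (hN g).1] at this
    exact_mod_cast this
  · -- invariance
    intro g γ hγ
    unfold per
    rw [← (Equiv.mulLeft (⟨γ, hγ⟩ : Gam)).tsum_eq (fun γ' : Gam => f (g * (γ' : GR)))]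
    refine tsum_congr fun γ' => ?_
    simp [mul_assoc]

end KFUC
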