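import Mathlib
import Pool.Agent.H22.KF.Targets

/-!
# FL: lower bound of the flag sum
-/

open MeasureTheory Filter Topology
open scoped ENNReal

namespace KFFL

open KF

/-- sup norm of an integer vector -/
def hh (w : VZ) : ℕ := max (max (w 0).natAbs (w 1).natAbs) (w 2).natAbs

theorem natAbs_le_hh (w : VZ) (i : Fin 3) : (w i).natAbs ≤ hh w := by
  unfold hh
  fin_cases i <;> simp

theorem hh_le {w : VZ} {k : ℕ} (h : ∀ i, (w i).natAbs ≤ k) : hh w ≤ k :=
  max_le (max_le (h 0) (h 1)) (h 2)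

theorem nz_sq (w : VZ) : nz w ^ 2 = ∑ i, (w i : ℝ) ^ 2 := by
  unfold nz nrm cst
  rw [Real.sq_sqrt (by positivity)]

theorem nz_nonneg (w : VZ) : 0 ≤ nz w := by
  unfold nz nrm
  exact Real.sqrt_nonneg _

theorem nz_pos {w : VZ} (hw : w ≠ 0) : 0 < nz w := by
  have h1 : 0 < nz w ^ 2 := by
    rw [nz_sq]
    obtain ⟨i, hi⟩ := Function.ne_iff.1 hw
    have hi' : (w i : ℝ) ≠ 0 := by
      have : w i ≠ 0 := hi
      exact_mod_cast this
    have h2 : 0 < (w i : ℝ) ^ 2 := by positivity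
    exact lt_of_lt_of_le h2 (Finset.single_le_sum (f := fun i => (w i : ℝ) ^ 2)
      (fun _ _ => by positivity) (Finset.mem_univ i))
  rcases (nz_nonneg w).lt_or_eq with h | h
  · exact h
  · rw [← h] at h1
    norm_num at h1

theorem nz_smul (d : ℤ) (w : VZ) : nz (d • w) ^ 2 = (d : ℝ) ^ 2 * nz w ^ 2 := by
  rw [nz_sq, nz_sq, Finset.mul_sum]
  refine Finset.sum_congr rfl fun i _ => ?_
  simp only [Pi.smul_apply, smul_eq_mul]
  push_cast
  ring

theorem nz_sq_le (w : VZ) : nz w ^ 2 ≤ 3 * (hh w : ℝ) ^ 2 := by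
  rw [nz_sq]
  have h : ∀ i ∈ (Finset.univ : Finset (Fin 3)), (w i : ℝ) ^ 2 ≤ (hh w : ℝ) ^ 2 := by
    intro i _
    have h1 := natAbs_le_hh w i
    have h2 : |(w i : ℝ)| ≤ hh w := by
      have h3 : ((w i).natAbs : ℝ) = |(w i : ℝ)| := by
        rw [Nat.cast_natAbs]
        push_cast
        rfl
      rw [← h3]
      exact_mod_cast h1
    rw [← sq_abs (w i : ℝ)]
    exact pow_le_pow_left₀ (abs_nonneg _) h2 2
  refine (Finset.sum_le_card_nsmul _ _ _ h).trans ?_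
  simp

theorem hh_pos {w : VZ} (hw : w ≠ 0) : 0 < hh w := by
  obtain ⟨i, hi⟩ := Function.ne_iff.1 hw
  have hi' : w i ≠ 0 := hi
  exact lt_of_lt_of_le (Int.natAbs_pos.2 hi') (natAbs_le_hh w i)

/-- the box -/
noncomputable def box (k : ℕ) : Finset VZ := Fintype.piFinset fun _ => Finset.Icc (-(k : ℤ)) k

theorem mem_box {k : ℕ} {w : VZ} : w ∈ box k ↔ hh w ≤ k := by
  unfold box hh
  rw [Fintype.mem_piFinset]
  constructor
  · intro h
    have h0 := Finset.mem_Icc.1 (h 0)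
    have h1 := Finset.mem_Icc.1 (h 1)
    have h2 := Finset.mem_Icc.1 (h 2)
    omega
  · intro h i
    rw [Finset.mem_Icc]
    have : (w i).natAbs ≤ k := by
      have := natAbs_le_hh w i
      unfold hh at this
      omega
    omega

theorem card_box (k : ℕ) : (box k).card = (2 * k + 1) ^ 3 := by
  unfold box
  rw [Fintype.card_piFinset]
  simp only [Int.card_Icc, Finset.prod_const, Finset.card_univ, Fintype.card_fin]
  congr 1
  omega

/-- vectors of the box orthogonal to `v` -/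
noncomputable def Ns (v : VZ) (k : ℕ) : Finset VZ := (box k).filter fun w => dotZ w v = 0

theorem pigeon (v : VZ) (H R : ℕ) (hH : 1 ≤ H) (hv : hh v ≤ H) (hR : 1 ≤ R) :
    (R : ℝ) ^ 2 / H ≤ (Ns v (2 * R)).card := by
  set t : Finset ℤ := Finset.Icc (-(3 * R * H : ℕ) : ℤ) (3 * R * H : ℕ) with ht
  have hmaps : ∀ u ∈ box R, dotZ u v ∈ t := by
    intro u hu
    rw [mem_box] at hu
    have h1 : ∀ i, |u i * v i| ≤ (R : ℤ) * H := by
      intro i
      rw [abs_mul]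
      have h2 : |u i| ≤ (R : ℤ) := by
        have := (natAbs_le_hh u i).trans hu
        rw [Int.abs_eq_natAbs]
        exact_mod_cast this
      have h3 : |v i| ≤ (H : ℤ) := by
        have := (natAbs_le_hh v i).trans hv
        rw [Int.abs_eq_natAbs]
        exact_mod_cast this
      exact mul_le_mul h2 h3 (abs_nonneg _) (by positivity)
    have h0 := abs_le.1 (h1 0)
    have h1' := abs_le.1 (h1 1)
    have h2 := abs_le.1 (h1 2)
    rw [ht, Finset.mem_Icc]
    unfold dotZ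
    push_cast
    constructor <;> nlinarith [h0.1, h0.2, h1'.1, h1'.2, h2.1, h2.2]
  have htc : (t.card : ℝ) = 6 * R * H + 1 := by
    rw [ht, Int.card_Icc]
    have : ((3 * R * H : ℕ) : ℤ) + 1 - (-(3 * R * H : ℕ) : ℤ) = ((6 * R * H + 1 : ℕ) : ℤ) := by
      push_cast
      ring
    rw [this, Int.toNat_natCast]
    push_cast
    ring
  have hne : t.Nonempty := by
    rw [← Finset.card_pos]
    have h1 : (0 : ℝ) < t.card := by
      rw [htc]
      positivity
    exact_mod_cast h1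
  have hR' : (1 : ℝ) ≤ R := by exact_mod_cast hR
  have hH' : (1 : ℝ) ≤ H := by exact_mod_cast hH
  have hb : t.card • ((R : ℝ) ^ 2 / H) ≤ ((box R).card : ℝ) := by
    rw [nsmul_eq_mul, htc, card_box]
    push_cast
    have h1 : (6 * (R : ℝ) * H + 1) * (R ^ 2 / H) = 6 * R ^ 3 + R ^ 2 / H := by
      field_simp
    rw [h1]
    have h2 : (R : ℝ) ^ 2 / H ≤ R ^ 2 := div_le_self (by positivity) hH'
    nlinarith [sq_nonneg (R : ℝ)]
  obtain ⟨y, _, hy⟩ := Finset.exists_le_card_fiber_of_nsmul_le_card_of_maps_to hmaps hne hb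
  refine hy.trans ?_
  have hpos : 0 < ((box R).filter fun u => dotZ u v = y).card := by
    have : (0 : ℝ) < (R : ℝ) ^ 2 / H := by positivity
    exact_mod_cast lt_of_lt_of_le this hy
  obtain ⟨u₀, hu₀⟩ := Finset.card_pos.1 hpos
  rw [Finset.mem_filter, mem_box] at hu₀
  have hcard : ((box R).filter fun u => dotZ u v = y).card ≤ (Ns v (2 * R)).card := by
    refine Finset.card_le_card_of_injOn (fun u => u - u₀) ?_ ?_
    · intro u hu
      rw [Finset.mem_coe, Finset.mem_filter, mem_box] at hu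
      simp only [Ns, Finset.coe_filter, Set.mem_ofPred_eq, mem_box]
      constructor
      · refine hh_le fun i => ?_
        have h1 := (natAbs_le_hh u i).trans hu.1
        have h2 := (natAbs_le_hh u₀ i).trans hu₀.1
        have h3 := Int.natAbs_sub_le (u i) (u₀ i)
        rw [Pi.sub_apply]
        omega
      · have e : dotZ (u - u₀) v = dotZ u v - dotZ u₀ v := by
          unfold dotZ
          simp only [Pi.sub_apply]
          ring
        rw [e, hu.2, hu₀.2, sub_self]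
    · intro u _ u' _ h
      have h' : u - u₀ = u' - u₀ := h
      exact sub_left_inj.1 h'
  exact_mod_cast hcard

theorem Ns_card_ge (v : VZ) (H k : ℕ) (hH : 1 ≤ H) (hv : hh v ≤ H) (hk : 2 ≤ k) :
    (k : ℝ) ^ 2 / (9 * H) ≤ (Ns v k).card := by
  have h1 := pigeon v H (k / 2) hH hv (by omega)
  have h2 : (Ns v (2 * (k / 2))).card ≤ (Ns v k).card := by
    refine Finset.card_le_card fun w hw => ?_
    rw [Ns, Finset.mem_filter, mem_box] at hw ⊢
    exact ⟨by omega, hw.2⟩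
  have h3 : (k : ℝ) / 3 ≤ ((k / 2 : ℕ) : ℝ) := by
    have : k ≤ 3 * (k / 2) := by omega
    have h4 : (k : ℝ) ≤ 3 * ((k / 2 : ℕ) : ℝ) := by exact_mod_cast this
    linarith
  have hH' : (1 : ℝ) ≤ H := by exact_mod_cast hH
  calc (k : ℝ) ^ 2 / (9 * H) = ((k : ℝ) / 3) ^ 2 / H := by
        field_simp
        ring
    _ ≤ ((k / 2 : ℕ) : ℝ) ^ 2 / H := by gcongr
    _ ≤ _ := h1
    _ ≤ _ := by exact_mod_cast h2

/-! ### Abel summation -/

theorem tele (h Y : ℕ) (hh1 : 1 ≤ h) :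
    ∑ k ∈ Finset.Ico h Y, (1 / (k : ℝ) ^ 2 - 1 / ((k : ℝ) + 1) ^ 2) ≤ 1 / (h : ℝ) ^ 2 := by
  rcases le_total h Y with hY | hY
  · have : ∑ k ∈ Finset.Ico h Y, (1 / (k : ℝ) ^ 2 - 1 / ((k : ℝ) + 1) ^ 2) =
        1 / (h : ℝ) ^ 2 - 1 / (Y : ℝ) ^ 2 := by
      induction Y, hY using Nat.le_induction with
      | base => simp
      | succ Y hY ih =>
        rw [Finset.sum_Ico_succ_top hY, ih]
        push_cast
        ring
    rw [this]
    have : 0 ≤ 1 / (Y : ℝ) ^ 2 := by positivity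
    linarith
  · rw [Finset.Ico_eq_empty_of_le hY, Finset.sum_empty]
    positivity

theorem coef_ge (k : ℕ) (hk : 1 ≤ k) :
    1 / ((k : ℝ) ^ 2 * (k + 1)) ≤ 1 / (k : ℝ) ^ 2 - 1 / ((k : ℝ) + 1) ^ 2 := by
  have hk' : (1 : ℝ) ≤ k := by exact_mod_cast hk
  have h1 : 1 / (k : ℝ) ^ 2 - 1 / ((k : ℝ) + 1) ^ 2 =
      (2 * k + 1) / ((k : ℝ) ^ 2 * (k + 1) ^ 2) := by
    field_simp
    ring
  rw [h1, div_le_div_iff₀ (by positivity) (by positivity)]
  have : 0 < (k : ℝ) ^ 2 * (k + 1) := by positivity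
  nlinarith

theorem abel (v : VZ) (H a Y : ℕ) (hH : 1 ≤ H) (hv : hh v ≤ H) (ha : 5 * H ≤ a) :
    (∑ k ∈ Finset.Ico a Y, 1 / ((k : ℝ) + 1)) / (18 * H) ≤
      ∑ w ∈ (Ns v Y).erase 0, 1 / (hh w : ℝ) ^ 2 := by
  have hH' : (1 : ℝ) ≤ H := by exact_mod_cast hH
  calc (∑ k ∈ Finset.Ico a Y, 1 / ((k : ℝ) + 1)) / (18 * H)
      ≤ ∑ k ∈ Finset.Ico a Y, ((Ns v k).card - 1 : ℝ) *
          (1 / (k : ℝ) ^ 2 - 1 / ((k : ℝ) + 1) ^ 2) := by
        rw [Finset.sum_div]
        refine Finset.sum_le_sum fun k hk => ?_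
        have hk1 : a ≤ k := (Finset.mem_Ico.1 hk).1
        have hk5 : 5 * H ≤ k := ha.trans hk1
        have hk5' : 5 * (H : ℝ) ≤ k := by exact_mod_cast hk5
        have h1 := Ns_card_ge v H k hH hv (by omega)
        have h2 : (k : ℝ) ^ 2 / (18 * H) ≤ (Ns v k).card - 1 := by
          have h3 : (k : ℝ) ^ 2 / (9 * H) = 2 * ((k : ℝ) ^ 2 / (18 * H)) := by
            field_simp
            ring
          have h4 : 1 ≤ (k : ℝ) ^ 2 / (18 * H) := by
            rw [le_div_iff₀ (by positivity)]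
            nlinarith
          linarith
        have hk0 : (0 : ℝ) < k := by linarith
        calc 1 / ((k : ℝ) + 1) / (18 * H) = (k : ℝ) ^ 2 / (18 * H) * (1 / ((k : ℝ) ^ 2 * (k + 1))) := by
              field_simp
          _ ≤ ((Ns v k).card - 1) * (1 / (k : ℝ) ^ 2 - 1 / ((k : ℝ) + 1) ^ 2) := by
              refine mul_le_mul h2 (coef_ge k (by omega)) (by positivity) ?_
              exact le_trans (by positivity) h2
    _ = ∑ k ∈ Finset.Ico a Y, ∑ w ∈ (Ns v Y).erase 0, (if hh w ≤ k then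
          (1 / (k : ℝ) ^ 2 - 1 / ((k : ℝ) + 1) ^ 2) else 0) := by
        refine Finset.sum_congr rfl fun k hk => ?_
        have hkY : k < Y := (Finset.mem_Ico.1 hk).2
        rw [← Finset.sum_filter, Finset.sum_const, nsmul_eq_mul]
        congr 1
        have hset : ((Ns v Y).erase 0).filter (fun w => hh w ≤ k) = (Ns v k).erase 0 := by
          ext w
          simp only [Ns, Finset.mem_filter, Finset.mem_erase, mem_box]
          constructor
          · rintro ⟨⟨h0, _, h2⟩, h3⟩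
            exact ⟨h0, h3, h2⟩
          · rintro ⟨h0, h3, h2⟩
            exact ⟨⟨h0, by omega, h2⟩, h3⟩
        have h0 : (0 : VZ) ∈ Ns v k := by
          simp [Ns, mem_box, hh, dotZ]
        rw [hset, Finset.card_erase_of_mem h0]
        have : 1 ≤ (Ns v k).card := Finset.card_pos.2 ⟨0, h0⟩
        push_cast [Nat.cast_sub this]
        rfl
    _ = ∑ w ∈ (Ns v Y).erase 0, ∑ k ∈ Finset.Ico a Y, (if hh w ≤ k then
          (1 / (k : ℝ) ^ 2 - 1 / ((k : ℝ) + 1) ^ 2) else 0) := Finset.sum_comm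
    _ ≤ _ := by
        refine Finset.sum_le_sum fun w hw => ?_
        have hw0 : w ≠ 0 := (Finset.mem_erase.1 hw).1
        have hw1 : 1 ≤ hh w := hh_pos hw0
        refine le_trans ?_ (tele (hh w) Y hw1)
        rw [← Finset.sum_filter]
        refine Finset.sum_le_sum_of_subset_of_nonneg ?_ ?_
        · intro k hk
          rw [Finset.mem_filter, Finset.mem_Ico] at hk
          exact Finset.mem_Ico.2 ⟨hk.2, hk.1.2⟩
        · intro k hk _
          have hk1 : 1 ≤ k := hw1.trans (Finset.mem_Ico.1 hk).1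
          refine le_trans ?_ (coef_ge k hk1)
          positivity

/-! ### harmonic sums -/

theorem harm (a Y : ℕ) (h : a ≤ Y) :
    Real.log (Y + 1) - Real.log (a + 1) ≤ ∑ k ∈ Finset.Ico a Y, 1 / ((k : ℝ) + 1) := by
  induction Y, h using Nat.le_induction with
  | base => simp
  | succ Y hY ih =>
    rw [Finset.sum_Ico_succ_top hY]
    have h1 : Real.log ((Y : ℝ) + 1 + 1) - Real.log (Y + 1) ≤ 1 / ((Y : ℝ) + 1) := by
      rw [← Real.log_div (by positivity) (by positivity)]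
      have h2 := Real.log_le_sub_one_of_pos (show 0 < ((Y : ℝ) + 1 + 1) / (Y + 1) by positivity)
      have h3 : ((Y : ℝ) + 1 + 1) / (Y + 1) - 1 = 1 / (Y + 1) := by
        field_simp
        ring
      linarith
    push_cast
    linarith

theorem sum_inv_sq (N : ℕ) : ∑ d ∈ Finset.Icc 1 N, 1 / (d : ℝ) ^ 2 ≤ 2 - 1 / (N : ℝ) := by
  induction N with
  | zero => simp
  | succ N ih =>
    rw [Finset.sum_Icc_succ_top (by omega)]
    rcases Nat.eq_zero_or_pos N with h0 | h0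
    · subst h0
      norm_num
    · have hN : (1 : ℝ) ≤ N := by exact_mod_cast h0
      have h1 : 1 / (((N + 1 : ℕ) : ℝ)) ^ 2 ≤ 1 / (N : ℝ) - 1 / ((N + 1 : ℕ) : ℝ) := by
        push_cast
        have h2 : 1 / (N : ℝ) - 1 / ((N : ℝ) + 1) = 1 / (N * (N + 1)) := by
          field_simp
          ring
        rw [h2]
        apply one_div_le_one_div_of_le (by positivity)
        nlinarith
      linarith

theorem sum_inv_sq_le (N : ℕ) : ∑ d ∈ Finset.Icc 1 N, 1 / (d : ℝ) ^ 2 ≤ 2 := by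
  have h1 := sum_inv_sq N
  have h2 : 0 ≤ 1 / (N : ℝ) := by positivity
  linarith

/-! ### the family of vectors -/

/-- the explicit vectors `(k, a, b)` -/
def vv (p : Σ _ : ℕ, ℕ × ℕ) : VZ := ![(p.1 : ℤ), (p.2.1 : ℤ), (p.2.2 : ℤ)]

theorem vv_inj : Function.Injective vv := by
  rintro ⟨k, a, b⟩ ⟨k', a', b'⟩ h
  have h0 := congrFun h 0
  have h1 := congrFun h 1
  have h2 := congrFun h 2
  simp only [vv, Matrix.cons_val_zero, Matrix.cons_val_one, Matrix.cons_val] at h0 h1 h2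
  have e0 : k = k' := by exact_mod_cast h0
  have e1 : a = a' := by exact_mod_cast h1
  have e2 : b = b' := by exact_mod_cast h2
  subst e0 e1 e2
  rfl

theorem hh_vv (p : Σ _ : ℕ, ℕ × ℕ) (h1 : p.2.1 ≤ p.1) (h2 : p.2.2 ≤ p.1) : hh (vv p) = p.1 := by
  unfold hh vv
  simp only [Matrix.cons_val_zero, Matrix.cons_val_one, Matrix.cons_val, Int.natAbs_natCast]
  omega

/-- the index set -/
def II (M : ℕ) : Finset (Σ _ : ℕ, ℕ × ℕ) :=
  (Finset.Icc 1 M).sigma fun k => Finset.Icc 1 k ×ˢ Finset.Icc 1 k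

theorem mem_II {M : ℕ} {p : Σ _ : ℕ, ℕ × ℕ} (h : p ∈ II M) :
    1 ≤ p.1 ∧ p.1 ≤ M ∧ p.2.1 ≤ p.1 ∧ p.2.2 ≤ p.1 := by
  simp only [II, Finset.mem_sigma, Finset.mem_product, Finset.mem_Icc] at h
  exact ⟨h.1.1, h.1.2, h.2.1.2, h.2.2.2⟩

theorem sum_II (M : ℕ) : Real.log (M + 1) ≤ ∑ p ∈ II M, 1 / (hh (vv p) : ℝ) ^ 3 := by
  have h1 : ∑ p ∈ II M, 1 / (hh (vv p) : ℝ) ^ 3 = ∑ k ∈ Finset.Ico 0 M, 1 / ((k : ℝ) + 1) := by
    have h2 : ∑ p ∈ II M, 1 / (hh (vv p) : ℝ) ^ 3 = ∑ p ∈ II M, 1 / (p.1 : ℝ) ^ 3 := by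
      refine Finset.sum_congr rfl fun p hp => ?_
      obtain ⟨_, _, h3, h4⟩ := mem_II hp
      rw [hh_vv p h3 h4]
    rw [h2, II, Finset.sum_sigma]
    simp only [Finset.sum_const, Finset.card_product, Nat.card_Icc, add_tsub_cancel_right,
      nsmul_eq_mul]
    clear h2
    induction M with
    | zero => simp
    | succ M ih =>
      rw [Finset.sum_Icc_succ_top (by omega), Finset.sum_Ico_succ_top (by omega), ih]
      congr 1
      push_cast
      field_simp
  rw [h1]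
  have := harm 0 M (Nat.zero_le _)
  simpa using this

/-! ### primitive parts -/

/-- the gcd as a natural number -/
def gn (x : VZ) : ℕ := Int.gcd (Int.gcd (x 0) (x 1)) (x 2)

theorem gcd3_eq (x : VZ) : gcd3 x = (gn x : ℤ) := rfl

theorem gn_dvd (x : VZ) (i : Fin 3) : (gn x : ℤ) ∣ x i := by
  have h1 : (gn x : ℤ) ∣ (Int.gcd (x 0) (x 1) : ℤ) := Int.gcd_dvd_left ..
  have h2 : (gn x : ℤ) ∣ x 2 := Int.gcd_dvd_right ..
  fin_cases i
  · exact h1.trans (Int.gcd_dvd_left ..)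
  · exact h1.trans (Int.gcd_dvd_right ..)
  · exact h2

theorem dvd_gn {x : VZ} {d : ℤ} (h : ∀ i, d ∣ x i) : d ∣ (gn x : ℤ) :=
  Int.dvd_coe_gcd (Int.dvd_coe_gcd (h 0) (h 1)) (h 2)

theorem gn_pos {x : VZ} (hx : x ≠ 0) : 0 < gn x := by
  obtain ⟨i, hi⟩ := Function.ne_iff.1 hx
  rw [Nat.pos_iff_ne_zero]
  intro h0
  have := gn_dvd x i
  rw [h0, Nat.cast_zero, zero_dvd_iff] at this
  exact hi this

/-- primitive part -/
def pp (x : VZ) : VZ := fun i => x i / (gn x : ℤ)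

theorem pp_spec (x : VZ) : x = (gn x : ℤ) • pp x := by
  funext i
  simp only [pp, Pi.smul_apply, smul_eq_mul]
  exact (Int.mul_ediv_cancel' (gn_dvd x i)).symm

theorem pp_prim {x : VZ} (hx : x ≠ 0) : Prim (pp x) := by
  intro d hd
  have h1 : ∀ i, (gn x : ℤ) * d ∣ x i := by
    intro i
    have h2 := congrFun (pp_spec x) i
    rw [h2]
    exact mul_dvd_mul_left _ (hd i)
  have h3 := dvd_gn h1
  have h4 : (gn x : ℤ) ≠ 0 := by exact_mod_cast (gn_pos hx).ne'
  have h5 : d ∣ 1 := by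
    have h6 : (gn x : ℤ) * d ∣ (gn x : ℤ) * 1 := by rwa [mul_one]
    exact (mul_dvd_mul_iff_left h4).1 h6
  exact isUnit_of_dvd_one h5

theorem dotZ_smul (a b : ℤ) (x y : VZ) : dotZ (a • x) (b • y) = a * b * dotZ x y := by
  unfold dotZ
  simp only [Pi.smul_apply, smul_eq_mul]
  ring

theorem dot_pp {x y : VZ} (hx : x ≠ 0) (hy : y ≠ 0) (h : dotZ x y = 0) :
    dotZ (pp x) (pp y) = 0 := by
  rw [pp_spec x, pp_spec y, dotZ_smul] at h
  have h1 : (gn x : ℤ) ≠ 0 := by exact_mod_cast (gn_pos hx).ne'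
  have h2 : (gn y : ℤ) ≠ 0 := by exact_mod_cast (gn_pos hy).ne'
  rcases mul_eq_zero.1 h with h3 | h3
  · exact absurd h3 (mul_ne_zero h1 h2)
  · exact h3

theorem nz_pp (x : VZ) : nz x ^ 2 = (gn x : ℝ) ^ 2 * nz (pp x) ^ 2 := by
  conv_lhs => rw [pp_spec x]
  rw [nz_smul]
  norm_cast

theorem nz_pp_le {x : VZ} (hx : x ≠ 0) : nz (pp x) ≤ nz x := by
  have h1 := nz_pp x
  have h2 : (1 : ℝ) ≤ gn x := by exact_mod_cast gn_pos hx
  have h3 : nz (pp x) ^ 2 ≤ nz x ^ 2 := by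
    rw [h1]
    have : (1 : ℝ) ≤ (gn x : ℝ) ^ 2 := one_le_pow₀ h2
    nlinarith [sq_nonneg (nz (pp x))]
  exact (pow_le_pow_iff_left₀ (nz_nonneg _) (nz_nonneg _) two_ne_zero).1 h3

theorem nz_le_of_hh {x : VZ} {k : ℕ} (h : hh x ≤ k) : nz x ≤ 2 * k := by
  have h1 := nz_sq_le x
  have h2 : (hh x : ℝ) ≤ k := by exact_mod_cast h
  have h3 : nz x ^ 2 ≤ (2 * (k : ℝ)) ^ 2 := by
    have : (hh x : ℝ) ^ 2 ≤ (k : ℝ) ^ 2 := pow_le_pow_left₀ (Nat.cast_nonneg _) h2 2
    nlinarith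
  exact (pow_le_pow_iff_left₀ (nz_nonneg _) (by positivity) two_ne_zero).1 h3

/-- the weight of a pair -/
noncomputable def wt (z : VZ × VZ) : ℝ := 1 / (nz z.1 ^ 2 * nz z.2 ^ 2)

theorem wt_nonneg (z : VZ × VZ) : 0 ≤ wt z := by
  unfold wt
  positivity

theorem wt_pp (z : VZ × VZ) (h1 : z.1 ≠ 0) (h2 : z.2 ≠ 0) :
    wt z = (1 / (gn z.1 : ℝ) ^ 2) * (1 / (gn z.2 : ℝ) ^ 2) * wt (pp z.1, pp z.2) := by
  unfold wt
  rw [nz_pp z.1, nz_pp z.2]
  have := gn_pos h1
  have := gn_pos h2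
  simp only [one_div, mul_inv]
  ring

/-- all pairs are controlled by primitive pairs -/
theorem to_prim (T : Finset (VZ × VZ)) (hT : ∀ z ∈ T, z.1 ≠ 0 ∧ z.2 ≠ 0) :
    ∑ z ∈ T, wt z ≤ 4 * ∑ z ∈ T.image (fun z => (pp z.1, pp z.2)), wt z := by
  classical
  set N : ℕ := ∑ z ∈ T, (gn z.1 + gn z.2) with hN
  rw [← Finset.sum_fiberwise_of_maps_to (g := fun z : VZ × VZ => (pp z.1, pp z.2))
    (fun z hz => Finset.mem_image_of_mem _ hz), Finset.mul_sum]
  refine Finset.sum_le_sum fun z' _ => ?_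
  have h1 : ∑ z ∈ T.filter (fun z => (pp z.1, pp z.2) = z'), wt z =
      (∑ z ∈ T.filter (fun z => (pp z.1, pp z.2) = z'),
        (1 / (gn z.1 : ℝ) ^ 2) * (1 / (gn z.2 : ℝ) ^ 2)) * wt z' := by
    rw [Finset.sum_mul]
    refine Finset.sum_congr rfl fun z hz => ?_
    rw [Finset.mem_filter] at hz
    rw [wt_pp z (hT z hz.1).1 (hT z hz.1).2, hz.2]
  rw [h1]
  refine mul_le_mul_of_nonneg_right ?_ (wt_nonneg _)
  have hinj : Set.InjOn (fun z : VZ × VZ => (gn z.1, gn z.2))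
      (T.filter (fun z => (pp z.1, pp z.2) = z')) := by
    intro z hz y hy h
    rw [Finset.mem_coe, Finset.mem_filter] at hz hy
    have h2 : (gn z.1, gn z.2) = (gn y.1, gn y.2) := h
    rw [Prod.mk.injEq] at h2
    have h3 : (pp z.1, pp z.2) = (pp y.1, pp y.2) := hz.2.trans hy.2.symm
    rw [Prod.mk.injEq] at h3
    refine Prod.ext ?_ ?_
    · rw [pp_spec z.1, pp_spec y.1, h2.1, h3.1]
    · rw [pp_spec z.2, pp_spec y.2, h2.2, h3.2]
  have h2 : ∑ z ∈ T.filter (fun z => (pp z.1, pp z.2) = z'),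
        (1 / (gn z.1 : ℝ) ^ 2) * (1 / (gn z.2 : ℝ) ^ 2) =
      ∑ q ∈ (T.filter (fun z => (pp z.1, pp z.2) = z')).image (fun z => (gn z.1, gn z.2)),
        (1 / (q.1 : ℝ) ^ 2) * (1 / (q.2 : ℝ) ^ 2) := by
    rw [Finset.sum_image hinj]
  rw [h2]
  calc ∑ q ∈ (T.filter (fun z => (pp z.1, pp z.2) = z')).image (fun z => (gn z.1, gn z.2)),
        (1 / (q.1 : ℝ) ^ 2) * (1 / (q.2 : ℝ) ^ 2)
      ≤ ∑ q ∈ Finset.Icc 1 N ×ˢ Finset.Icc 1 N, (1 / (q.1 : ℝ) ^ 2) * (1 / (q.2 : ℝ) ^ 2) := by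
        refine Finset.sum_le_sum_of_subset_of_nonneg ?_ (fun _ _ _ => by positivity)
        intro q hq
        obtain ⟨z, hz, rfl⟩ := Finset.mem_image.1 hq
        rw [Finset.mem_filter] at hz
        have h3 := gn_pos (hT z hz.1).1
        have h4 := gn_pos (hT z hz.1).2
        have h5 : gn z.1 + gn z.2 ≤ N :=
          Finset.single_le_sum (f := fun z : VZ × VZ => gn z.1 + gn z.2)
            (fun _ _ => Nat.zero_le _) hz.1
        simp only [Finset.mem_product, Finset.mem_Icc]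
        omega
    _ = (∑ d ∈ Finset.Icc 1 N, 1 / (d : ℝ) ^ 2) * (∑ d ∈ Finset.Icc 1 N, 1 / (d : ℝ) ^ 2) := by
        rw [Finset.sum_product, Finset.sum_mul_sum]
    _ ≤ 2 * 2 := mul_le_mul (sum_inv_sq_le N) (sum_inv_sq_le N) (by positivity) (by norm_num)
    _ = 4 := by norm_num

/-! ### the final bound -/

theorem main_bound (M : ℕ) (hM : 4 ≤ M) :
    ∃ T : Finset (VZ × VZ), (∀ z ∈ T, z.1 ≠ 0 ∧ z.2 ≠ 0 ∧ dotZ z.2 z.1 = 0 ∧
      nz z.1 ≤ 10 * (M : ℝ) ^ 2 ∧ nz z.2 ≤ 10 * (M : ℝ) ^ 2) ∧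
      Real.log M ^ 2 / 324 ≤ ∑ z ∈ T, wt z := by
  classical
  set Y := 5 * M ^ 2 with hY
  set V := (II M).image vv with hV
  refine ⟨(V ×ˢ box Y).filter (fun z => z.2 ≠ 0 ∧ dotZ z.2 z.1 = 0), ?_, ?_⟩
  · intro z hz
    rw [Finset.mem_filter, Finset.mem_product, mem_box] at hz
    obtain ⟨⟨h1, h2⟩, h3, h4⟩ := hz
    obtain ⟨p, hp, hpz⟩ := Finset.mem_image.1 h1
    obtain ⟨p1, p2, p3, p4⟩ := mem_II hp
    have h5 : hh z.1 = p.1 := by rw [← hpz, hh_vv p p3 p4]
    have hMM : M ≤ Y := by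
      rw [hY]
      nlinarith
    have h6 : ((Y : ℕ) : ℝ) = 5 * (M : ℝ) ^ 2 := by
      rw [hY]
      push_cast
      ring
    refine ⟨?_, h3, h4, ?_, ?_⟩
    · intro h0
      rw [h0] at h5
      have : hh (0 : VZ) = 0 := by simp [hh]
      omega
    · have := nz_le_of_hh (show hh z.1 ≤ Y by omega)
      linarith
    · have := nz_le_of_hh h2
      linarith
  · have hMr : (4 : ℝ) ≤ M := by exact_mod_cast hM
    have hlogM : 0 ≤ Real.log M := Real.log_nonneg (by linarith)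
    have hharm : Real.log M / 2 ≤ ∑ k ∈ Finset.Ico (5 * M) Y, 1 / ((k : ℝ) + 1) := by
      refine le_trans ?_ (harm (5 * M) Y (by rw [hY]; nlinarith))
      rw [← Real.log_div (by positivity) (by positivity), hY]
      push_cast
      have h1 : Real.log M / 2 = Real.log (Real.sqrt M) := by
        rw [Real.log_sqrt (by positivity)]
      rw [h1]
      apply Real.log_le_log (by positivity)
      rw [le_div_iff₀ (by positivity)]
      have h2 : Real.sqrt M ≤ M / 2 := by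
        rw [Real.sqrt_le_left (by positivity)]
        nlinarith
      have h3 : Real.sqrt M * (5 * M + 1) ≤ M / 2 * (5 * M + 1) :=
        mul_le_mul_of_nonneg_right h2 (by positivity)
      nlinarith
    have hwt : ∀ z : VZ × VZ, z.1 ≠ 0 → z.2 ≠ 0 →
        (1 / 9) * ((1 / (hh z.1 : ℝ) ^ 2) * (1 / (hh z.2 : ℝ) ^ 2)) ≤ wt z := by
      intro z h1 h2
      have a1 := nz_sq_le z.1
      have a2 := nz_sq_le z.2
      have b1 := nz_pos h1
      have b2 := nz_pos h2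
      have c1 : (0 : ℝ) < hh z.1 := by exact_mod_cast hh_pos h1
      have c2 : (0 : ℝ) < hh z.2 := by exact_mod_cast hh_pos h2
      have e1 : (1 / 9 : ℝ) * ((1 / (hh z.1 : ℝ) ^ 2) * (1 / (hh z.2 : ℝ) ^ 2)) =
          1 / ((3 * (hh z.1 : ℝ) ^ 2) * (3 * (hh z.2 : ℝ) ^ 2)) := by
        field_simp
        norm_num
      rw [e1, wt]
      apply one_div_le_one_div_of_le (by positivity)
      exact mul_le_mul a1 a2 (by positivity) (by positivity)
    have hvne : ∀ p ∈ II M, vv p ≠ 0 := by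
      intro p hp h0
      obtain ⟨p1, p2, p3, p4⟩ := mem_II hp
      have h5 := hh_vv p p3 p4
      rw [h0] at h5
      have : hh (0 : VZ) = 0 := by simp [hh]
      omega
    have hset : ∀ v : VZ, (box Y).filter (fun w => w ≠ 0 ∧ dotZ w v = 0) = (Ns v Y).erase 0 := by
      intro v
      ext w
      simp only [Ns, Finset.mem_filter, Finset.mem_erase]
      tauto
    calc Real.log M ^ 2 / 324 = (1 / 9) * (Real.log M / 36 * Real.log M) := by ring
      _ ≤ (1 / 9) * (Real.log M / 36 * ∑ p ∈ II M, 1 / (hh (vv p) : ℝ) ^ 3) := by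
          have h1 : Real.log M ≤ Real.log (M + 1) := Real.log_le_log (by positivity) (by linarith)
          have h2 := h1.trans (sum_II M)
          gcongr
      _ = ∑ p ∈ II M, (1 / 9) * (Real.log M / 36 * (1 / (hh (vv p) : ℝ) ^ 3)) := by
          rw [Finset.mul_sum, Finset.mul_sum]
      _ ≤ ∑ p ∈ II M, ∑ w ∈ (Ns (vv p) Y).erase 0, wt (vv p, w) := by
          refine Finset.sum_le_sum fun p hp => ?_
          obtain ⟨p1, p2, p3, p4⟩ := mem_II hp
          have h5 := hh_vv p p3 p4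
          have hH : (1 : ℝ) ≤ p.1 := by exact_mod_cast p1
          have h6 := abel (vv p) p.1 (5 * M) Y p1 h5.le (by omega)
          calc (1 / 9) * (Real.log M / 36 * (1 / (hh (vv p) : ℝ) ^ 3))
              = (1 / 9) * ((1 / (hh (vv p) : ℝ) ^ 2) * ((Real.log M / 2) / (18 * p.1))) := by
                rw [h5]
                field_simp
                ring
            _ ≤ (1 / 9) * ((1 / (hh (vv p) : ℝ) ^ 2) *
                  ∑ w ∈ (Ns (vv p) Y).erase 0, 1 / (hh w : ℝ) ^ 2) := by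
                have h7 : (Real.log M / 2) / (18 * p.1) ≤
                    ∑ w ∈ (Ns (vv p) Y).erase 0, 1 / (hh w : ℝ) ^ 2 := by
                  refine le_trans ?_ h6
                  gcongr
                gcongr
            _ = ∑ w ∈ (Ns (vv p) Y).erase 0,
                  (1 / 9) * ((1 / (hh (vv p) : ℝ) ^ 2) * (1 / (hh w : ℝ) ^ 2)) := by
                rw [Finset.mul_sum, Finset.mul_sum]
            _ ≤ _ := by
                refine Finset.sum_le_sum fun w hw => ?_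
                exact hwt (vv p, w) (hvne p hp) (Finset.mem_erase.1 hw).1
      _ = ∑ v ∈ V, ∑ w ∈ (Ns v Y).erase 0, wt (v, w) := by
          rw [hV, Finset.sum_image (fun x _ y _ h => vv_inj h)]
      _ = _ := by
          rw [Finset.sum_filter, Finset.sum_product]
          refine Finset.sum_congr rfl fun v _ => ?_
          rw [← hset v, Finset.sum_filter]

theorem FL : KF.T_FL := by
  classical
  refine ⟨1 / 20736, 160, by norm_num, fun X hX => ?_⟩
  -- choose `M` with `10 M² ≤ X`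
  set M : ℕ := ⌊Real.sqrt (X / 10)⌋₊ with hMdef
  have hX0 : 0 < X := by linarith
  have hs4 : 4 ≤ Real.sqrt (X / 10) := by
    apply Real.le_sqrt_of_sq_le
    linarith
  have hM4 : 4 ≤ M := Nat.le_floor (by exact_mod_cast hs4)
  have hMle : (M : ℝ) ≤ Real.sqrt (X / 10) := Nat.floor_le (Real.sqrt_nonneg _)
  have hM2 : 10 * (M : ℝ) ^ 2 ≤ X := by
    have h1 : (M : ℝ) ^ 2 ≤ Real.sqrt (X / 10) ^ 2 := pow_le_pow_left₀ (Nat.cast_nonneg _) hMle 2
    rw [Real.sq_sqrt (by positivity)] at h1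
    linarith
  have hMlt : Real.sqrt (X / 10) < M + 1 := Nat.lt_floor_add_one _
  have hMr : (4 : ℝ) ≤ M := by exact_mod_cast hM4
  -- `X ≤ M ^ 4`
  have hXM : X ≤ (M : ℝ) ^ 4 := by
    have h1 : X / 10 < ((M : ℝ) + 1) ^ 2 := by
      have h2 : Real.sqrt (X / 10) ^ 2 < ((M : ℝ) + 1) ^ 2 :=
        pow_lt_pow_left₀ hMlt (Real.sqrt_nonneg _) two_ne_zero
      rwa [Real.sq_sqrt (by positivity)] at h2
    have h3 : 10 * ((M : ℝ) + 1) ^ 2 ≤ (M : ℝ) ^ 4 := by
      have h4 : ((M : ℝ) + 1) ≤ 5 / 4 * M := by linarith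
      have h5 : ((M : ℝ) + 1) ^ 2 ≤ (5 / 4 * M) ^ 2 := pow_le_pow_left₀ (by positivity) h4 2
      have h6 : (16 : ℝ) ≤ (M : ℝ) ^ 2 := by nlinarith
      have h7 : (16 : ℝ) * (M : ℝ) ^ 2 ≤ (M : ℝ) ^ 2 * (M : ℝ) ^ 2 :=
        mul_le_mul_of_nonneg_right h6 (by positivity)
      nlinarith
    linarith
  have hlog : Real.log X / 4 ≤ Real.log M := by
    have h1 : Real.log X ≤ Real.log ((M : ℝ) ^ 4) := Real.log_le_log hX0 hXM
    rw [Real.log_pow] at h1
    push_cast at h1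
    linarith
  have hlX : 0 ≤ Real.log X := Real.log_nonneg (by linarith)
  obtain ⟨T, hT, hsum⟩ := main_bound M hM4
  refine ⟨T.image (fun z => (pp z.1, pp z.2)), ?_, ?_⟩
  · intro z hz
    obtain ⟨y, hy, rfl⟩ := Finset.mem_image.1 hz
    obtain ⟨h1, h2, h3, h4, h5⟩ := hT y hy
    exact ⟨pp_prim h1, pp_prim h2, dot_pp h2 h1 h3, (nz_pp_le h1).trans (h4.trans hM2),
      (nz_pp_le h2).trans (h5.trans hM2)⟩
  · have h1 := to_prim T fun z hz => ⟨(hT z hz).1, (hT z hz).2.1⟩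
    have h2 : (Real.log X / 4) ^ 2 ≤ Real.log M ^ 2 := pow_le_pow_left₀ (by positivity) hlog 2
    have h3 : ∑ z ∈ T.image (fun z => (pp z.1, pp z.2)), wt z =
        ∑ z ∈ T.image (fun z => (pp z.1, pp z.2)), 1 / (nz z.1 ^ 2 * nz z.2 ^ 2) := rfl
    rw [← h3]
    nlinarith

end KFFL
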